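import Mathlib
import Pool.Agent.H510R2.Maier.MB9

set_option autoImplicit false

/-! # Poor windows of length `(log n)^2 / D n` -/

open Filter Finset Topology
open Pool.Agent.H510R2.Maier (cntP cntP_eq)

namespace Pool.Agent.U839.Thin

/-- primes in `(n, n + w]` -/
def PW (n w : ℕ) : Finset ℕ := (Ioc n (n + w)).filter Nat.Prime

theorem mem_PW {n w p : ℕ} : p ∈ PW n w ↔ (n < p ∧ p ≤ n + w) ∧ p.Prime := by
  rw [PW, Finset.mem_filter, Finset.mem_Ioc]

theorem card_PW (n w : ℕ) : (PW n w).card = cntP Nat.Prime n w := by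
  rw [cntP_eq, PW]
  symm
  apply Finset.card_bij (fun h _ => n + h)
  · intro h hh
    rw [Finset.mem_filter, Finset.mem_Icc] at hh
    rw [Finset.mem_filter, Finset.mem_Ioc]
    exact ⟨by omega, hh.2⟩
  · intro a _ b _ hab
    omega
  · intro p hp
    rw [Finset.mem_filter, Finset.mem_Ioc] at hp
    refine ⟨p - n, ?_, by omega⟩
    rw [Finset.mem_filter, Finset.mem_Icc]
    refine ⟨by omega, ?_⟩
    rw [Nat.add_sub_cancel' hp.1.1.le]
    exact hp.2

/-- pigeonhole: one of `m` consecutive subwindows is at most as rich as the average -/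
theorem subwindow (n Y m : ℕ) (hm : 0 < m) :
    ∃ i < m, m * (PW (n + i * (Y / m)) (Y / m)).card ≤ (PW n Y).card := by
  by_contra hcon
  push Not at hcon
  set w := Y / m with hw
  have hdis : ∀ i ∈ range m, ∀ j ∈ range m, i ≠ j →
      Disjoint (PW (n + i * w) w) (PW (n + j * w) w) := by
    intro i _ j _ hij
    rw [Finset.disjoint_left]
    intro p hp hp'
    rw [PW, Finset.mem_filter, Finset.mem_Ioc] at hp hp'
    rcases lt_or_gt_of_ne hij with h | h
    · have : (i + 1) * w ≤ j * w := Nat.mul_le_mul_right w h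
      rw [add_mul, one_mul] at this
      omega
    · have : (j + 1) * w ≤ i * w := Nat.mul_le_mul_right w h
      rw [add_mul, one_mul] at this
      omega
  have hsub : (range m).biUnion (fun i => PW (n + i * w) w) ⊆ PW n Y := by
    intro p hp
    rw [Finset.mem_biUnion] at hp
    obtain ⟨i, hi, hp⟩ := hp
    rw [Finset.mem_range] at hi
    rw [PW, Finset.mem_filter, Finset.mem_Ioc] at hp ⊢
    have h1 : (i + 1) * w ≤ m * w := Nat.mul_le_mul_right w hi
    have h2 : m * w ≤ Y := Nat.mul_div_le Y m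
    rw [add_mul, one_mul] at h1
    exact ⟨by omega, hp.2⟩
  have h1 := Finset.card_le_card hsub
  rw [Finset.card_biUnion hdis] at h1
  have h2 : ∑ i ∈ range m, (PW n Y).card < ∑ i ∈ range m, m * (PW (n + i * w) w).card := by
    apply Finset.sum_lt_sum_of_nonempty ⟨0, Finset.mem_range.2 hm⟩
    intro i hi
    exact hcon i (Finset.mem_range.1 hi)
  rw [Finset.sum_const, Finset.card_range, smul_eq_mul, ← Finset.mul_sum] at h2
  have h3 := Nat.lt_of_mul_lt_mul_left h2
  omega

/-- the conditions on `D` -/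
structure Slow (D : ℕ → ℝ) : Prop where
  pos : ∃ D₀ : ℝ, 0 < D₀ ∧ ∀ᶠ n in atTop, D₀ ≤ D n
  small : Tendsto (fun n : ℕ => D n / Real.log n) atTop (𝓝 0)
  slow : ∀ ε : ℝ, 0 < ε → ∀ᶠ n : ℕ in atTop, ∀ m : ℕ, n ≤ m → m ≤ 2 * n → |D m - D n| ≤ ε * D n

theorem tlog : Tendsto (fun n : ℕ => Real.log (n : ℝ)) atTop atTop :=
  Real.tendsto_log_atTop.comp tendsto_natCast_atTop_atTop

/-- choice of `η` -/
theorem exists_eta (G ε : ℝ) (hε : 0 < ε) : ∃ η : ℝ, 0 < η ∧ η ≤ 1 / 10 ∧
    (G - ε) * (1 + η) ^ 2 / (1 - η) ≤ G * (1 - η) ^ 2 / ((1 + η) / (1 - 3 * η) + η) := by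
  have hc : ContinuousAt (fun η : ℝ => G * (1 - η) ^ 2 / ((1 + η) / (1 - 3 * η) + η) -
      (G - ε) * (1 + η) ^ 2 / (1 - η)) 0 := by
    apply ContinuousAt.sub
    · apply ContinuousAt.div
      · fun_prop
      · apply ContinuousAt.add
        · apply ContinuousAt.div
          · fun_prop
          · fun_prop
          · norm_num
        · fun_prop
      · norm_num
    · apply ContinuousAt.div
      · fun_prop
      · fun_prop
      · norm_num
  have h0 : (fun η : ℝ => G * (1 - η) ^ 2 / ((1 + η) / (1 - 3 * η) + η) -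
      (G - ε) * (1 + η) ^ 2 / (1 - η)) 0 = ε := by
    simp
  have h2 : ∀ᶠ η in 𝓝 (0 : ℝ), 0 < G * (1 - η) ^ 2 / ((1 + η) / (1 - 3 * η) + η) -
      (G - ε) * (1 + η) ^ 2 / (1 - η) := by
    apply hc.eventually_const_lt
    rw [h0]
    exact hε
  obtain ⟨δ, hδ, h3⟩ := Metric.eventually_nhds_iff.1 h2
  refine ⟨min (δ / 2) (1 / 10), by positivity, min_le_right _ _, ?_⟩
  have h4 := h3 (y := min (δ / 2) (1 / 10)) (by
    rw [Real.dist_eq, sub_zero, abs_of_pos (by positivity)]
    exact lt_of_le_of_lt (min_le_left _ _) (by linarith))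
  linarith

/-- the subwindow with few primes -/
theorem point (D : ℕ → ℝ) (hD : Slow D) (G ε : ℝ) (hG : 0 < G) (hε : 0 < ε) (hεG : ε < G) :
    ∃ κ c η : ℝ, 0 < κ ∧ 0 < c ∧ c < G * κ ∧ 0 < η ∧ η ≤ 1 / 10 ∧ ∀ᶠ n : ℕ in atTop,
      (cntP Nat.Prime n ⌊c * (Real.log n) ^ 2⌋₊ : ℝ) ≤ κ * Real.log n →
      ∃ n' w : ℕ, n ≤ n' ∧ n' + w ≤ n + ⌊c * (Real.log n) ^ 2⌋₊ ∧
        (G - ε) * (Real.log n') ^ 2 / D n' ≤ w ∧
        (1 + η) * D n * ((PW n' w).card : ℝ) ≤ (1 - 3 * η) * Real.log n := by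
  obtain ⟨η, hη, hη1, hηG⟩ := exists_eta G ε hε
  obtain ⟨D₀, hD₀, hD0⟩ := hD.pos
  set κ : ℝ := 1 / (η * D₀) with hκ
  have hκ0 : 0 < κ := by positivity
  set c : ℝ := G * κ * (1 - η) with hc
  have h1η : 0 < 1 - η := by linarith
  have h3η : 0 < 1 - 3 * η := by linarith
  have hc0 : 0 < c := by positivity
  refine ⟨κ, c, η, hκ0, hc0, ?_, hη, hη1, ?_⟩
  · rw [hc]
    have : 0 < G * κ := by positivity
    nlinarith
  set B : ℝ := (1 + η) / (1 - 3 * η) + η with hB
  have hB0 : 0 < B := by positivity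
  set K : ℝ := η * (G * (1 - η) / B) with hK
  have hK0 : 0 < K := by positivity
  have t1 := tlog
  -- log^2 / D is large
  have e1 : ∀ᶠ n : ℕ in atTop, D n ≤ K / 2 * Real.log n := by
    filter_upwards [hD.small.eventually_lt_const (show (0 : ℝ) < K / 2 by positivity),
      t1.eventually_ge_atTop 1] with n h1 h2
    rw [div_lt_iff₀ (by linarith)] at h1
    exact h1.le
  -- the window is inside [n, 2n]
  have e2 : ∀ᶠ n : ℕ in atTop, c * (Real.log n) ^ 2 ≤ n := by
    have h1 := (isLittleO_log_rpow_atTop (r := 1 / 4) (by norm_num)).bound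
      (show (0 : ℝ) < 1 by norm_num)
    have h2 := tendsto_natCast_atTop_atTop.eventually h1
    have h3 : ∀ᶠ n : ℕ in atTop, c ≤ (n : ℝ) ^ (1 / 2 : ℝ) :=
      ((tendsto_rpow_atTop (by norm_num : (0 : ℝ) < 1 / 2)).comp
        tendsto_natCast_atTop_atTop).eventually_ge_atTop c
    filter_upwards [h2, h3, t1.eventually_ge_atTop 0, eventually_ge_atTop 1] with n g1 g2 g3 g4
    have g5 : (0 : ℝ) < n := by exact_mod_cast g4
    rw [one_mul, Real.norm_of_nonneg g3, Real.norm_of_nonneg (by positivity)] at g1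
    calc c * (Real.log n) ^ 2 ≤ (n : ℝ) ^ (1 / 2 : ℝ) * ((n : ℝ) ^ (1 / 4 : ℝ)) ^ 2 := by
          gcongr
      _ = (n : ℝ) ^ (1 / 2 : ℝ) * (n : ℝ) ^ (1 / 2 : ℝ) := by
          rw [← Real.rpow_natCast, ← Real.rpow_mul g5.le]
          norm_num
      _ = n := by
          rw [← Real.rpow_add g5]
          norm_num
  filter_upwards [hD0, e1, e2, hD.slow η hη, t1.eventually_ge_atTop 1,
    t1.eventually_ge_atTop (1 / η), t1.eventually_ge_atTop (1 / c)]
    with n g1 g2 g3 g4 g5 g6 g6' hcnt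
  set L : ℝ := Real.log n with hL
  have hL0 : 0 < L := by linarith
  have hDn : 0 < D n := by linarith
  set Y : ℕ := ⌊c * L ^ 2⌋₊ with hY
  set q : ℝ := κ * D n * (1 + η) / (1 - 3 * η) with hq
  have hq0 : 0 < q := by positivity
  set m : ℕ := ⌈q⌉₊ with hm
  have hm0 : 0 < m := Nat.ceil_pos.2 hq0
  have hm0' : (0 : ℝ) < m := by exact_mod_cast hm0
  have hmq : q ≤ m := Nat.le_ceil q
  have hm1 : (m : ℝ) ≤ κ * D n * B := by
    have h1 : (m : ℝ) ≤ q + 1 := (Nat.ceil_lt_add_one hq0.le).le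
    have h2 : 1 ≤ κ * D n * η := by
      rw [hκ]
      have : 1 / (η * D₀) * D n * η = D n / D₀ := by field_simp
      rw [this, one_le_div hD₀]
      exact g1
    have h3 : κ * D n * B = q + κ * D n * η := by
      rw [hB, hq]; ring
    linarith
  obtain ⟨i, hi, hcard⟩ := subwindow n Y m hm0
  set w : ℕ := Y / m with hw
  have hYn : (Y : ℝ) ≤ c * L ^ 2 := Nat.floor_le (by positivity)
  have hYn' : (Y : ℝ) ≤ n := hYn.trans g3
  have hYn2 : Y ≤ n := by exact_mod_cast hYn'
  have hiw : (i + 1) * w ≤ Y := (Nat.mul_le_mul_right w hi).trans (Nat.mul_div_le Y m)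
  have hiw' : i * w + w ≤ Y := by
    rw [add_mul, one_mul] at hiw
    exact hiw
  refine ⟨n + i * w, w, Nat.le_add_right _ _, by omega, ?_, ?_⟩
  · -- the length
    set n' : ℕ := n + i * w with hn'
    have hn1 : n ≤ n' := Nat.le_add_right _ _
    have hn3 : i * w ≤ Y := (Nat.le_add_right _ _).trans hiw'
    have hn2 : n' ≤ 2 * n := by rw [hn']; omega
    have hDn' : (1 - η) * D n ≤ D n' := by
      have := abs_le.1 (g4 n' hn1 hn2)
      linarith [this.1]
    have hDn'0 : 0 < D n' := lt_of_lt_of_le (by positivity) hDn'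
    have hn0 : (0 : ℝ) < n := by
      rcases Nat.eq_zero_or_pos n with h | h
      · rw [hL, h] at hL0
        simp at hL0
      · exact_mod_cast h
    have hL' : Real.log n' ≤ (1 + η) * L := by
      have h1 : Real.log n' ≤ Real.log (2 * n) := by
        apply Real.log_le_log (by exact_mod_cast lt_of_lt_of_le (by exact_mod_cast hn0) hn1)
        exact_mod_cast hn2
      rw [Real.log_mul (by norm_num) hn0.ne'] at h1
      have h2 : Real.log 2 ≤ 1 := by
        have := Real.log_two_lt_d9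
        linarith
      have h3 : 1 ≤ η * L := by
        rw [div_le_iff₀ hη] at g6
        linarith
      linarith
    have hL'0 : 0 ≤ Real.log n' := Real.log_natCast_nonneg _
    have hGε : 0 < G - ε := by linarith
    have s1 : (G - ε) * (Real.log n') ^ 2 / D n' ≤
        (G - ε) * (1 + η) ^ 2 / (1 - η) * (L ^ 2 / D n) := by
      calc (G - ε) * (Real.log n') ^ 2 / D n' ≤ (G - ε) * ((1 + η) * L) ^ 2 / ((1 - η) * D n) := by
            gcongr
        _ = _ := by field_simp
    have s2 : (G - ε) * (1 + η) ^ 2 / (1 - η) * (L ^ 2 / D n) ≤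
        G * (1 - η) ^ 2 / B * (L ^ 2 / D n) := by
      apply mul_le_mul_of_nonneg_right hηG
      positivity
    have s3 : (c * L ^ 2) / m - 2 ≤ w := by
      have h1 : c * L ^ 2 < Y + 1 := Nat.lt_floor_add_one _
      have h2 : (Y : ℝ) / m < w + 1 := by
        rw [div_lt_iff₀ hm0']
        have h3 : Y < m * (Y / m + 1) := Nat.lt_mul_div_succ Y hm0
        have h4 : (Y : ℝ) < m * ((w : ℝ) + 1) := by exact_mod_cast h3
        linarith
      have h3 : (1 : ℝ) / m ≤ 1 := by
        rw [div_le_one hm0']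
        exact_mod_cast hm0
      have h4 : c * L ^ 2 / m ≤ (Y + 1) / m := by gcongr
      rw [add_div] at h4
      linarith
    have s4 : G * (1 - η) / B * (L ^ 2 / D n) ≤ (c * L ^ 2) / m := by
      calc G * (1 - η) / B * (L ^ 2 / D n) = c * L ^ 2 / (κ * D n * B) := by
            rw [hc]; field_simp
        _ ≤ _ := by gcongr
    have s5 : 2 ≤ K * (L ^ 2 / D n) := by
      rw [mul_div_assoc', le_div_iff₀ hDn]
      calc 2 * D n ≤ 2 * (K / 2 * L) := by linarith
        _ = K * L * 1 := by ring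
        _ ≤ K * L * L := by gcongr
        _ = K * L ^ 2 := by ring
    have s6 : G * (1 - η) ^ 2 / B * (L ^ 2 / D n) =
        G * (1 - η) / B * (L ^ 2 / D n) - K * (L ^ 2 / D n) := by
      rw [hK]; ring
    linarith
  · -- the number of primes
    rw [← card_PW] at hcnt
    have h1 : (m : ℝ) * ((PW (n + i * w) w).card : ℝ) ≤ κ * L := by
      refine le_trans ?_ hcnt
      exact_mod_cast hcard
    have h2 : q * ((PW (n + i * w) w).card : ℝ) ≤ κ * L :=
      (mul_le_mul_of_nonneg_right hmq (Nat.cast_nonneg _)).trans h1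
    have h3 : κ * ((1 + η) * D n * ((PW (n + i * w) w).card : ℝ)) ≤ κ * ((1 - 3 * η) * L) := by
      have h4' : (1 - 3 * η) * q = κ * D n * (1 + η) := by
        rw [hq, mul_comm, div_mul_cancel₀ _ h3η.ne']
      have h4 : κ * ((1 + η) * D n * ((PW (n + i * w) w).card : ℝ)) =
          (1 - 3 * η) * (q * ((PW (n + i * w) w).card : ℝ)) := by
        linear_combination (-((PW (n + i * w) w).card : ℝ)) * h4'
      rw [h4]
      calc _ ≤ (1 - 3 * η) * (κ * L) := by gcongr
        _ = _ := by ring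
    exact le_of_mul_le_mul_left h3 hκ0

end Pool.Agent.U839.Thin
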