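import Mathlib

set_option autoImplicit false

/-! # Disjoint groups of independent events: one group occurs completely -/

open MeasureTheory ProbabilityTheory Filter Finset

namespace Pool.Agent.U839.Thin

variable {Ω : Type*} [MeasurableSpace Ω] {μ : Measure Ω} [IsProbabilityMeasure μ]

omit [MeasurableSpace Ω] in
/-- the sigma-algebra of a group -/
theorem meas_group {A : ℕ → Set Ω} (T : Finset ℕ) :
    MeasurableSet[⨆ p ∈ (T : Set ℕ), MeasurableSpace.generateFrom {A p}] (⋂ p ∈ T, A p) := by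
  apply Finset.measurableSet_biInter T
  intro p hp
  have h1 : MeasurableSet[MeasurableSpace.generateFrom {A p}] (A p) :=
    MeasurableSpace.measurableSet_generateFrom (Set.mem_singleton _)
  exact (le_iSup₂ (f := fun p (_ : p ∈ (T : Set ℕ)) => MeasurableSpace.generateFrom {A p}) p
    (by exact_mod_cast hp)) _ h1

theorem prod_compl {A : ℕ → Set Ω} (hm : ∀ p, MeasurableSet (A p)) (hA : iIndepSet A μ)
    (S : Finset ℕ) (T : ℕ → Finset ℕ) (hT : ∀ i ∈ S, ∀ j ∈ S, i ≠ j → Disjoint (T i) (T j)) :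
    μ.real (⋂ i ∈ S, (⋂ p ∈ T i, A p)ᶜ) = ∏ i ∈ S, (1 - ∏ p ∈ T i, μ.real (A p)) := by
  classical
  have hle : ∀ p, MeasurableSpace.generateFrom {A p} ≤ (inferInstance : MeasurableSpace Ω) := by
    intro p
    apply MeasurableSpace.generateFrom_le
    intro t ht
    rw [Set.mem_singleton_iff.1 ht]
    exact hm p
  have hE : ∀ i, μ.real (⋂ p ∈ T i, A p) = ∏ p ∈ T i, μ.real (A p) := by
    intro i
    have := hA.meas_biInter (T i)
    simp only [measureReal_def]
    rw [this, ENNReal.toReal_prod]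
  induction S using Finset.induction_on with
  | empty => simp
  | insert a s has ih =>
    have ih' := ih (fun i hi j hj => hT i (Finset.mem_insert_of_mem hi) j (Finset.mem_insert_of_mem hj))
    rw [Finset.prod_insert has, Finset.set_biInter_insert]
    have hind := indep_iSup_of_disjoint hle hA
      (S := ((T a : Finset ℕ) : Set ℕ)) (T := ((s.biUnion T : Finset ℕ) : Set ℕ)) (by
        rw [Finset.disjoint_coe, Finset.disjoint_biUnion_right]
        intro i hi
        apply hT a (Finset.mem_insert_self _ _) i (Finset.mem_insert_of_mem hi)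
        rintro rfl
        exact has hi)
    have h1 : MeasurableSet[⨆ p ∈ ((T a : Finset ℕ) : Set ℕ), MeasurableSpace.generateFrom {A p}]
        (⋂ p ∈ T a, A p)ᶜ := (meas_group (T a)).compl
    have h2 : MeasurableSet[⨆ p ∈ ((s.biUnion T : Finset ℕ) : Set ℕ), MeasurableSpace.generateFrom {A p}]
        (⋂ i ∈ s, (⋂ p ∈ T i, A p)ᶜ) := by
      apply Finset.measurableSet_biInter s
      intro i hi
      apply MeasurableSet.compl
      have h3 := meas_group (A := A) (T i)
      refine (iSup₂_mono' ?_ : (⨆ p ∈ ((T i : Finset ℕ) : Set ℕ), MeasurableSpace.generateFrom {A p}) ≤ _) _ h3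
      intro p hp
      refine ⟨p, ?_, le_rfl⟩
      rw [Finset.mem_coe, Finset.mem_biUnion]
      exact ⟨i, hi, by exact_mod_cast hp⟩
    have h4 := (Indep_iff _ _ μ).1 hind _ _ h1 h2
    have h5 : μ.real ((⋂ p ∈ T a, A p)ᶜ ∩ ⋂ i ∈ s, (⋂ p ∈ T i, A p)ᶜ) =
        μ.real (⋂ p ∈ T a, A p)ᶜ * μ.real (⋂ i ∈ s, (⋂ p ∈ T i, A p)ᶜ) := by
      simp only [measureReal_def]
      rw [h4, ENNReal.toReal_mul]
    rw [h5, ih']
    congr 1
    rw [probReal_compl_eq_one_sub (Finset.measurableSet_biInter _ (fun p _ => hm p)), hE]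

theorem none_complete {A : ℕ → Set Ω} (hm : ∀ p, MeasurableSet (A p)) (hA : iIndepSet A μ)
    (S : Finset ℕ) (T : ℕ → Finset ℕ) (hT : ∀ i ∈ S, ∀ j ∈ S, i ≠ j → Disjoint (T i) (T j)) :
    μ.real (⋂ i ∈ S, (⋂ p ∈ T i, A p)ᶜ) ≤ Real.exp (-∑ i ∈ S, ∏ p ∈ T i, μ.real (A p)) := by
  rw [prod_compl hm hA S T hT, ← Finset.sum_neg_distrib, Real.exp_sum]
  apply Finset.prod_le_prod
  · intro i _
    have : ∏ p ∈ T i, μ.real (A p) ≤ 1 :=
      Finset.prod_le_one (fun p _ => measureReal_nonneg) (fun p _ => measureReal_le_one)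
    linarith
  · intro i _
    have := Real.add_one_le_exp (-∏ p ∈ T i, μ.real (A p))
    linarith

/-- Borel-Cantelli: if for every large `x` there are disjoint groups for which the expected number of
complete groups is at least `x ^ β`, then almost surely for every large `x` a group is complete. -/
theorem ae_complete {A : ℕ → Set Ω} (hm : ∀ p, MeasurableSet (A p)) (hA : iIndepSet A μ)
    (β : ℝ) (hβ : 0 < β) (P : ℕ → ℕ → Finset ℕ → Prop)
    (h : ∀ᶠ x : ℕ in atTop, ∃ (S : Finset ℕ) (T : ℕ → Finset ℕ),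
      (∀ i ∈ S, ∀ j ∈ S, i ≠ j → Disjoint (T i) (T j)) ∧ (∀ i ∈ S, P x i (T i)) ∧
      (x : ℝ) ^ β ≤ ∑ i ∈ S, ∏ p ∈ T i, μ.real (A p)) :
    ∀ᵐ ω ∂μ, ∀ᶠ x : ℕ in atTop, ∃ (i : ℕ) (T : Finset ℕ), P x i T ∧ ∀ p ∈ T, ω ∈ A p := by
  classical
  obtain ⟨x₀, hx₀⟩ := eventually_atTop.1 h
  choose! S T h1 h2 h3 using hx₀
  set bad : ℕ → Set Ω := fun x => if x₀ ≤ x then ⋂ i ∈ S x, (⋂ p ∈ T x i, A p)ᶜ else ∅ with hbad
  have hb : ∀ x, μ.real (bad x) ≤ Real.exp (-(x : ℝ) ^ β) := by
    intro x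
    rw [hbad]
    simp only
    split_ifs with hx
    · refine (none_complete hm hA (S x) (T x) (h1 x hx)).trans ?_
      exact Real.exp_le_exp.2 (neg_le_neg (h3 x hx))
    · simp [Real.exp_nonneg]
  have hsum : Summable (fun x : ℕ => Real.exp (-(x : ℝ) ^ β)) := by
    obtain ⟨k, hk⟩ := exists_nat_gt (2 / β)
    have hk' : 2 < β * k := by
      rw [div_lt_iff₀ hβ] at hk
      linarith
    -- exp (-y) ≤ k! / y ^ k
    have hs : Summable (fun x : ℕ => (k.factorial : ℝ) * (1 / (x : ℝ) ^ (β * k))) := by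
      apply Summable.mul_left
      have := Real.summable_one_div_nat_rpow (p := β * k)
      exact this.2 (by linarith)
    refine Summable.of_norm_bounded_eventually_nat hs ?_
    filter_upwards [eventually_ge_atTop 1] with x hx
    have hx0 : (0 : ℝ) < x := by exact_mod_cast hx
    rw [Real.norm_of_nonneg (Real.exp_nonneg _)]
    have hy : 0 < (x : ℝ) ^ β := Real.rpow_pos_of_pos hx0 β
    have h4 : ((x : ℝ) ^ β) ^ k / k.factorial ≤ Real.exp ((x : ℝ) ^ β) :=
      Real.pow_div_factorial_le_exp _ hy.le k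
    rw [← Real.rpow_natCast, ← Real.rpow_mul hx0.le] at h4
    have hf : (0 : ℝ) < k.factorial := by exact_mod_cast Nat.factorial_pos k
    have hz : 0 < (x : ℝ) ^ (β * k) := Real.rpow_pos_of_pos hx0 _
    rw [Real.exp_neg, ← one_div, mul_one_div]
    rw [div_le_div_iff₀ (Real.exp_pos _) hz, one_mul]
    rw [div_le_iff₀ hf] at h4
    linarith
  have htot : ∑' x, μ (bad x) ≠ ⊤ := by
    have h5 : ∀ x, μ (bad x) ≤ ENNReal.ofReal (Real.exp (-(x : ℝ) ^ β)) := by
      intro x
      rw [← ENNReal.ofReal_toReal (measure_ne_top μ (bad x))]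
      exact ENNReal.ofReal_le_ofReal (hb x)
    refine ne_top_of_le_ne_top ?_ (ENNReal.tsum_le_tsum h5)
    exact hsum.tsum_ofReal_ne_top
  filter_upwards [ae_eventually_notMem htot] with ω hω
  filter_upwards [hω, eventually_ge_atTop x₀] with x hx hxx
  rw [hbad] at hx
  simp only [if_pos hxx] at hx
  rw [Set.mem_iInter₂] at hx
  push Not at hx
  obtain ⟨i, hi, hi2⟩ := hx
  rw [Set.notMem_compl_iff, Set.mem_iInter₂] at hi2
  exact ⟨i, T x i, h2 x hxx i hi, fun p hp => hi2 p hp⟩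

end Pool.Agent.U839.Thin
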