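import Mathlib
import Pool.Agent.U839.Thin.Prob
import Pool.Agent.U839.Thin.Det

set_option autoImplicit false

/-! # Deleting primes at random: the windows -/

open MeasureTheory ProbabilityTheory Filter Finset Topology
open Pool.Agent.H510R2.Maier (cntP cntP_eq)

namespace Pool.Agent.U839.Thin

/-- a residue class containing many elements -/
theorem residue (S : Finset ℕ) (M : ℕ) (hM : 0 < M) : ∃ r, S.card ≤ M * (S.filter (fun n => n % M = r)).card := by
  by_contra hcon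
  push Not at hcon
  have h1 : S.card = ∑ r ∈ range M, (S.filter (fun n => n % M = r)).card := by
    apply Finset.card_eq_sum_card_fiberwise
    intro n _
    exact Finset.mem_coe.2 (Finset.mem_range.2 (Nat.mod_lt n hM))
  have h2 : ∑ r ∈ range M, M * (S.filter (fun n => n % M = r)).card < ∑ r ∈ range M, S.card := by
    apply Finset.sum_lt_sum_of_nonempty ⟨0, Finset.mem_range.2 hM⟩
    intro r _
    exact hcon r
  rw [← Finset.mul_sum, ← h1, Finset.sum_const, Finset.card_range, smul_eq_mul] at h2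
  omega

theorem ev_arith (c η : ℝ) (hc : 0 < c) (hη : 0 < η) (hη1 : η ≤ 1 / 10) : ∀ᶠ x : ℕ in atTop,
    (x : ℝ) ^ η ≤ ((x : ℝ) ^ (1 - η / 2) - ((x : ℝ) ^ (1 / 2 : ℝ) + 1)) / (c * (Real.log x) ^ 2 + 1) *
      (x : ℝ) ^ (-(1 - 3 * η)) := by
  have h1 := (isLittleO_log_rpow_atTop (r := η / 8) (by positivity)).bound
    (show (0 : ℝ) < 1 by norm_num)
  have h2 := tendsto_natCast_atTop_atTop.eventually h1
  have tp : ∀ r : ℝ, 0 < r → Tendsto (fun n : ℕ => (n : ℝ) ^ r) atTop atTop := fun r hr =>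
    (tendsto_rpow_atTop hr).comp tendsto_natCast_atTop_atTop
  filter_upwards [h2, (tp (η / 4) (by positivity)).eventually_ge_atTop (c + 1),
    (tp (1 / 4) (by norm_num)).eventually_ge_atTop 4, tlog.eventually_ge_atTop 0,
    (tp η hη).eventually_ge_atTop 2, eventually_ge_atTop 1] with x g1 g2 g3 g4 g5 g6
  have hx1 : (1 : ℝ) ≤ x := by exact_mod_cast g6
  have hx : (0 : ℝ) < x := by linarith
  rw [one_mul, Real.norm_of_nonneg g4, Real.norm_of_nonneg (by positivity)] at g1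
  have h3 : c * (Real.log x) ^ 2 + 1 ≤ (x : ℝ) ^ (η / 2) := by
    have h4 : (Real.log x) ^ 2 ≤ (x : ℝ) ^ (η / 4) := by
      calc (Real.log x) ^ 2 ≤ ((x : ℝ) ^ (η / 8)) ^ 2 := by gcongr
        _ = (x : ℝ) ^ (η / 4) := by
            rw [← Real.rpow_natCast, ← Real.rpow_mul hx.le]
            congr 1
            push_cast; ring
    have h5 : 1 ≤ (x : ℝ) ^ (η / 4) := Real.one_le_rpow hx1 (by positivity)
    calc c * (Real.log x) ^ 2 + 1 ≤ c * (x : ℝ) ^ (η / 4) + 1 * (x : ℝ) ^ (η / 4) := by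
          rw [one_mul]; gcongr
      _ = (c + 1) * (x : ℝ) ^ (η / 4) := by ring
      _ ≤ (x : ℝ) ^ (η / 4) * (x : ℝ) ^ (η / 4) := by gcongr
      _ = (x : ℝ) ^ (η / 2) := by
          rw [← Real.rpow_add hx]
          congr 1
          ring
  have h6 : (x : ℝ) ^ (1 - η / 2) / 2 ≤ (x : ℝ) ^ (1 - η / 2) - ((x : ℝ) ^ (1 / 2 : ℝ) + 1) := by
    have h7 : 1 ≤ (x : ℝ) ^ (1 / 2 : ℝ) := Real.one_le_rpow hx1 (by norm_num)
    have h8 : (x : ℝ) ^ (1 / 2 : ℝ) * (x : ℝ) ^ (1 / 4 : ℝ) ≤ (x : ℝ) ^ (1 - η / 2) := by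
      rw [← Real.rpow_add hx]
      exact Real.rpow_le_rpow_of_exponent_le hx1 (by linarith)
    have h9 : (x : ℝ) ^ (1 / 2 : ℝ) * 4 ≤ (x : ℝ) ^ (1 / 2 : ℝ) * (x : ℝ) ^ (1 / 4 : ℝ) := by
      gcongr
    linarith
  have hpos : 0 < c * (Real.log x) ^ 2 + 1 := by positivity
  calc (x : ℝ) ^ η = (x : ℝ) ^ η * 1 := by ring
    _ ≤ (x : ℝ) ^ η * ((x : ℝ) ^ η / 2) := by gcongr; linarith
    _ = (x : ℝ) ^ (1 - η / 2) / 2 / (x : ℝ) ^ (η / 2) * (x : ℝ) ^ (-(1 - 3 * η)) := by
        have h10 : (x : ℝ) ^ (1 - η / 2) / (x : ℝ) ^ (η / 2) * (x : ℝ) ^ (-(1 - 3 * η)) =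
            (x : ℝ) ^ η * (x : ℝ) ^ η := by
          rw [← Real.rpow_sub hx, ← Real.rpow_add hx, ← Real.rpow_add hx]
          congr 1
          ring
        calc _ = ((x : ℝ) ^ η * (x : ℝ) ^ η) / 2 := by ring
          _ = ((x : ℝ) ^ (1 - η / 2) / (x : ℝ) ^ (η / 2) * (x : ℝ) ^ (-(1 - 3 * η))) / 2 := by
              rw [h10]
          _ = _ := by ring
    _ ≤ _ := by
        apply mul_le_mul_of_nonneg_right _ (by positivity)
        apply div_le_div₀ _ h6 hpos h3
        refine le_trans ?_ h6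
        positivity

variable {Ω : Type*} [MeasurableSpace Ω] {μ : Measure Ω} [IsProbabilityMeasure μ]

set_option maxHeartbeats 4000000 in
theorem windows (D : ℕ → ℝ) (hD : Slow D) {A : ℕ → Set Ω} (hm : ∀ p, MeasurableSet (A p))
    (hA : iIndepSet A μ)
    (hδ : ∀ᶠ p : ℕ in atTop, p.Prime → Real.exp (-D p) ≤ μ.real (A p)) (ε : ℝ) (hε : 0 < ε)
    (hεG : ε < 2 * Real.exp (-Real.eulerMascheroniConstant)) :
    ∀ᵐ ω ∂μ, ∃ᶠ n : ℕ in atTop, ∀ p : ℕ, p.Prime → n < p →
      (p : ℝ) ≤ n + (2 * Real.exp (-Real.eulerMascheroniConstant) - ε) * (Real.log n) ^ 2 / D n →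
      ω ∈ A p := by
  classical
  set G : ℝ := 2 * Real.exp (-Real.eulerMascheroniConstant) with hG
  have hG0 : 0 < G := by positivity
  obtain ⟨κ, c, η, hκ, hc, hcG, hη, hη1, hpt⟩ := point D hD G ε hG0 hε hεG
  have hff := Pool.Agent.H510R2.Maier.G.few_freq κ c (η / 2) hκ hcG (by positivity)
  obtain ⟨n₁, hn₁⟩ := eventually_atTop.1 hpt
  obtain ⟨n₂, hn₂⟩ := eventually_atTop.1 (hD.slow η hη)
  obtain ⟨n₃, hn₃⟩ := eventually_atTop.1 hδ
  have e2 : ∀ᶠ n : ℕ in atTop, c * (Real.log n) ^ 2 ≤ n := by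
    have h1 := (isLittleO_log_rpow_atTop (r := 1 / 4) (by norm_num)).bound
      (show (0 : ℝ) < 1 by norm_num)
    have h2 := tendsto_natCast_atTop_atTop.eventually h1
    have h3 : ∀ᶠ n : ℕ in atTop, c ≤ (n : ℝ) ^ (1 / 2 : ℝ) :=
      ((tendsto_rpow_atTop (by norm_num : (0 : ℝ) < 1 / 2)).comp
        tendsto_natCast_atTop_atTop).eventually_ge_atTop c
    filter_upwards [h2, h3, tlog.eventually_ge_atTop 0, eventually_ge_atTop 1] with n g1 g2 g3 g4
    have g5 : (0 : ℝ) < n := by exact_mod_cast g4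
    rw [one_mul, Real.norm_of_nonneg g3, Real.norm_of_nonneg (by positivity)] at g1
    calc c * (Real.log n) ^ 2 ≤ (n : ℝ) ^ (1 / 2 : ℝ) * ((n : ℝ) ^ (1 / 4 : ℝ)) ^ 2 := by
          gcongr
      _ = (n : ℝ) ^ (1 / 2 : ℝ) * (n : ℝ) ^ (1 / 2 : ℝ) := by
          rw [← Real.rpow_natCast, ← Real.rpow_mul g5.le]
          norm_num
      _ = n := by
          rw [← Real.rpow_add g5]
          norm_num
  obtain ⟨n₄, hn₄⟩ := eventually_atTop.1 e2
  have key := ae_complete (μ := μ) hm hA η hη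
    (fun x i T => (x : ℝ) ^ (1 / 2 : ℝ) ≤ i ∧ ∃ n' w : ℕ, i ≤ n' ∧
      (G - ε) * (Real.log n') ^ 2 / D n' ≤ w ∧ T = PW n' w) ?_
  · filter_upwards [key] with ω hω
    rw [frequently_atTop]
    intro N
    obtain ⟨x₀, hx₀⟩ := eventually_atTop.1 hω
    obtain ⟨i, T, ⟨h1, n', w, h2, h3, h4⟩, h5⟩ := hx₀ (max x₀ (N ^ 2)) (le_max_left _ _)
    refine ⟨n', ?_, ?_⟩
    · have h6 : (N : ℝ) ≤ i := by
        refine le_trans ?_ h1
        rw [← Real.sqrt_eq_rpow]
        apply Real.le_sqrt_of_sq_le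
        exact_mod_cast le_max_right x₀ (N ^ 2)
      have h7 : N ≤ i := by exact_mod_cast h6
      exact h7.trans h2
    · intro p hp h6 h7
      apply h5 p
      rw [h4, mem_PW]
      refine ⟨⟨h6, ?_⟩, hp⟩
      have : (p : ℝ) ≤ n' + w := by linarith
      exact_mod_cast this
  · have tsq : ∀ᶠ x : ℕ in atTop, ((max (max n₁ n₂) (max n₃ n₄) : ℕ) : ℝ) ≤ (x : ℝ) ^ (1 / 2 : ℝ) :=
      ((tendsto_rpow_atTop (by norm_num : (0 : ℝ) < 1 / 2)).comp
        tendsto_natCast_atTop_atTop).eventually_ge_atTop _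
    filter_upwards [hff, ev_arith c η hc hη hη1, tsq, eventually_ge_atTop 1] with x g1 g2 g3 g4
    have hx1 : (1 : ℝ) ≤ x := by exact_mod_cast g4
    have hx0 : (0 : ℝ) < x := by linarith
    have hLx : 0 ≤ Real.log x := Real.log_natCast_nonneg x
    set S₀ : Finset ℕ := (Icc 1 x).filter (fun n : ℕ =>
      (cntP Nat.Prime n ⌊c * (Real.log n) ^ 2⌋₊ : ℝ) ≤ κ * Real.log n) with hS₀
    have hS₀c : (x : ℝ) ^ (1 - η / 2) ≤ S₀.card := by
      unfold Pool.Agent.H510R2.Maier.G.NF at g1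
      convert g1
    set S₁ : Finset ℕ := S₀.filter (fun n : ℕ => (x : ℝ) ^ (1 / 2 : ℝ) ≤ n) with hS₁
    have hS₁c : (x : ℝ) ^ (1 - η / 2) - ((x : ℝ) ^ (1 / 2 : ℝ) + 1) ≤ S₁.card := by
      have h1 : S₀.card ≤ S₁.card + (range (⌊(x : ℝ) ^ (1 / 2 : ℝ)⌋₊ + 1)).card := by
        rw [← Finset.card_filter_add_card_filter_not (s := S₀) (fun n : ℕ => (x : ℝ) ^ (1 / 2 : ℝ) ≤ n)]
        apply Nat.add_le_add le_rfl
        apply Finset.card_le_card
        intro n hn
        rw [Finset.mem_filter, not_le] at hn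
        rw [Finset.mem_range]
        exact Nat.lt_succ_of_le (Nat.le_floor hn.2.le)
      rw [Finset.card_range] at h1
      have h2 : (S₀.card : ℝ) ≤ S₁.card + (⌊(x : ℝ) ^ (1 / 2 : ℝ)⌋₊ + 1) := by exact_mod_cast h1
      have h3 : (⌊(x : ℝ) ^ (1 / 2 : ℝ)⌋₊ : ℝ) ≤ (x : ℝ) ^ (1 / 2 : ℝ) :=
        Nat.floor_le (by positivity)
      linarith
    set M : ℕ := ⌊c * (Real.log x) ^ 2⌋₊ + 1 with hM
    obtain ⟨r, hr⟩ := residue S₁ M (Nat.succ_pos _)
    set S : Finset ℕ := S₁.filter (fun n => n % M = r) with hS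
    have hmem : ∀ n ∈ S, (1 ≤ n ∧ n ≤ x) ∧
        (cntP Nat.Prime n ⌊c * (Real.log n) ^ 2⌋₊ : ℝ) ≤ κ * Real.log n ∧
        (x : ℝ) ^ (1 / 2 : ℝ) ≤ n ∧ n % M = r := by
      intro n hn
      rw [hS, Finset.mem_filter, hS₁, Finset.mem_filter, hS₀, Finset.mem_filter, Finset.mem_Icc] at hn
      exact ⟨hn.1.1.1, hn.1.1.2, hn.1.2, hn.2⟩
    have hbig : ∀ n ∈ S, max (max n₁ n₂) (max n₃ n₄) ≤ n := by
      intro n hn
      have := g3.trans (hmem n hn).2.2.1
      exact_mod_cast this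
    have hex : ∀ n ∈ S, ∃ n' w : ℕ, n ≤ n' ∧ n' + w ≤ n + ⌊c * (Real.log n) ^ 2⌋₊ ∧
        (G - ε) * (Real.log n') ^ 2 / D n' ≤ w ∧
        (1 + η) * D n * ((PW n' w).card : ℝ) ≤ (1 - 3 * η) * Real.log n := by
      intro n hn
      exact hn₁ n (((le_max_left _ _).trans (le_max_left _ _)).trans (hbig n hn)) (hmem n hn).2.1
    choose! n' w h1 h2 h3 h4 using hex
    have hYM : ∀ n ∈ S, ⌊c * (Real.log n) ^ 2⌋₊ < M := by
      intro n hn
      rw [hM]
      apply Nat.lt_succ_of_le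
      apply Nat.floor_le_floor
      have h5 : Real.log n ≤ Real.log x :=
        Real.log_le_log (by exact_mod_cast (hmem n hn).1.1) (by exact_mod_cast (hmem n hn).1.2)
      have h6 : 0 ≤ Real.log n := Real.log_natCast_nonneg n
      gcongr
    refine ⟨S, fun n => PW (n' n) (w n), ?_, ?_, ?_⟩
    · intro i hi j hj hij
      rw [Finset.disjoint_left]
      intro p hp hp'
      rw [mem_PW] at hp hp'
      have a1 := h1 i hi
      have a2 := h2 i hi
      have a3 := hYM i hi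
      have b1 := h1 j hj
      have b2 := h2 j hj
      have b3 := hYM j hj
      have c1 := (hmem i hi).2.2.2
      have c2 := (hmem j hj).2.2.2
      have hmod : i ≡ j [MOD M] := by
        show i % M = j % M
        rw [c1, c2]
      rcases lt_or_gt_of_ne hij with h | h
      · have h5 : M ∣ j - i := (Nat.modEq_iff_dvd' h.le).1 hmod
        have h6 := Nat.le_of_dvd (by omega) h5
        omega
      · have h5 : M ∣ i - j := (Nat.modEq_iff_dvd' h.le).1 hmod.symm
        have h6 := Nat.le_of_dvd (by omega) h5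
        omega
    · intro n hn
      exact ⟨(hmem n hn).2.2.1, n' n, w n, h1 n hn, h3 n hn, rfl⟩
    · have hterm : ∀ n ∈ S, (x : ℝ) ^ (-(1 - 3 * η)) ≤ ∏ p ∈ PW (n' n) (w n), μ.real (A p) := by
        intro n hn
        have hb := hbig n hn
        have b1 : n₂ ≤ n := ((le_max_right _ _).trans (le_max_left _ _)).trans hb
        have b2 : n₃ ≤ n := ((le_max_left _ _).trans (le_max_right _ _)).trans hb
        have b3 : n₄ ≤ n := ((le_max_right _ _).trans (le_max_right _ _)).trans hb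
        have hYn : ⌊c * (Real.log n) ^ 2⌋₊ ≤ n := by
          have := (Nat.floor_le (show 0 ≤ c * (Real.log n) ^ 2 by positivity)).trans (hn₄ n b3)
          exact_mod_cast this
        have hp1 : ∀ p ∈ PW (n' n) (w n), Real.exp (-((1 + η) * D n)) ≤ μ.real (A p) := by
          intro p hp
          rw [mem_PW] at hp
          have a1 := h1 n hn
          have a2 := h2 n hn
          have k1 : n ≤ p := by omega
          have k2 : p ≤ 2 * n := by omega
          refine le_trans ?_ (hn₃ p (b2.trans k1) hp.2)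
          apply Real.exp_le_exp.2
          have := (abs_le.1 (hn₂ n b1 p k1 k2)).2
          linarith
        calc (x : ℝ) ^ (-(1 - 3 * η)) = Real.exp (-((1 - 3 * η) * Real.log x)) := by
              rw [Real.rpow_def_of_pos hx0]
              congr 1
              ring
          _ ≤ Real.exp (-((1 - 3 * η) * Real.log n)) := by
              apply Real.exp_le_exp.2
              have h5 : Real.log n ≤ Real.log x :=
                Real.log_le_log (by exact_mod_cast (hmem n hn).1.1)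
                  (by exact_mod_cast (hmem n hn).1.2)
              have h6 : 0 ≤ 1 - 3 * η := by linarith
              have := mul_le_mul_of_nonneg_left h5 h6
              linarith
          _ ≤ Real.exp (-((1 + η) * D n * ((PW (n' n) (w n)).card : ℝ))) := by
              apply Real.exp_le_exp.2
              linarith [h4 n hn]
          _ = ∏ _p ∈ PW (n' n) (w n), Real.exp (-((1 + η) * D n)) := by
              rw [Finset.prod_const, ← Real.exp_nat_mul]
              congr 1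
              ring
          _ ≤ _ := Finset.prod_le_prod (fun p _ => (Real.exp_pos _).le) hp1
      have hScard : ((x : ℝ) ^ (1 - η / 2) - ((x : ℝ) ^ (1 / 2 : ℝ) + 1)) /
          (c * (Real.log x) ^ 2 + 1) ≤ S.card := by
        rw [div_le_iff₀ (by positivity)]
        have h5 : (S₁.card : ℝ) ≤ M * S.card := by exact_mod_cast hr
        have h6 : (M : ℝ) ≤ c * (Real.log x) ^ 2 + 1 := by
          rw [hM]
          push_cast
          have := Nat.floor_le (show 0 ≤ c * (Real.log x) ^ 2 by positivity)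
          linarith
        calc _ ≤ (S₁.card : ℝ) := hS₁c
          _ ≤ M * S.card := h5
          _ ≤ (c * (Real.log x) ^ 2 + 1) * S.card := by gcongr
          _ = _ := by ring
      calc (x : ℝ) ^ η ≤ _ := g2
        _ ≤ S.card * (x : ℝ) ^ (-(1 - 3 * η)) := by gcongr
        _ = ∑ _n ∈ S, (x : ℝ) ^ (-(1 - 3 * η)) := by
            rw [Finset.sum_const, nsmul_eq_mul]
        _ ≤ _ := Finset.sum_le_sum hterm

end Pool.Agent.U839.Thin
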