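import Mathlib
import Pool.Agent.U839.Thin.Main
import Pool.Agent.TH456.HN.Harm

set_option autoImplicit false

/-! # Deleting primes at random: the limsup of the normalised gaps -/

open MeasureTheory ProbabilityTheory Filter Finset Topology

namespace Pool.Agent.U839.Thin

variable {Ω : Type*} [MeasurableSpace Ω] {μ : Measure Ω} [IsProbabilityMeasure μ]

/-- the constant `2 e^{-γ} = 1.1229...` -/
noncomputable def GG : ℝ := 2 * Real.exp (-Real.eulerMascheroniConstant)

theorem GG_pos : 0 < GG := by unfold GG; positivity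

/-- all `ε` at once -/
theorem windows_all (D : ℕ → ℝ) (hD : Slow D) {A : ℕ → Set Ω} (hm : ∀ p, MeasurableSet (A p))
    (hA : iIndepSet A μ)
    (hδ : ∀ᶠ p : ℕ in atTop, p.Prime → Real.exp (-D p) ≤ μ.real (A p)) :
    ∀ᵐ ω ∂μ, ∀ ε : ℝ, 0 < ε → ∃ᶠ n : ℕ in atTop, ∀ p : ℕ, p.Prime → n < p →
      (p : ℝ) ≤ n + (GG - ε) * (Real.log n) ^ 2 / D n → ω ∈ A p := by
  have h1 : ∀ j : ℕ, ∀ᵐ ω ∂μ, ∃ᶠ n : ℕ in atTop, ∀ p : ℕ, p.Prime → n < p →
      (p : ℝ) ≤ n + (GG - GG / (j + 2)) * (Real.log n) ^ 2 / D n → ω ∈ A p := by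
    intro j
    have hj : (0 : ℝ) < (j : ℝ) + 2 := by positivity
    refine windows D hD hm hA hδ (GG / (j + 2)) (div_pos GG_pos hj) ?_
    rw [div_lt_iff₀ hj]
    have := GG_pos
    have h0 : (0 : ℝ) ≤ j := Nat.cast_nonneg j
    show GG < GG * (j + 2)
    nlinarith
  rw [← ae_all_iff] at h1
  obtain ⟨D₀, hD₀, hD0⟩ := hD.pos
  filter_upwards [h1] with ω hω ε hε
  obtain ⟨j, hj⟩ := exists_nat_gt (GG / ε)
  have h2 : GG / ((j : ℝ) + 2) ≤ ε := by
    rw [div_le_iff₀ (by positivity)]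
    rw [div_lt_iff₀ hε] at hj
    nlinarith
  refine ((hω j).and_eventually hD0).mono ?_
  rintro n ⟨hn, hn0⟩ p hp h3 h4
  apply hn p hp h3
  refine h4.trans ?_
  have h5 : 0 < D n := lt_of_lt_of_le hD₀ hn0
  gcongr

/-- the limsup of the normalised gaps of a set of natural numbers -/
noncomputable def LL (Q : Set ℕ) : ENNReal :=
  limsup (fun k : ℕ => ENNReal.ofReal (((Nat.nth (· ∈ Q) (k + 1) : ℝ) - Nat.nth (· ∈ Q) k) /
    (Real.log (Nat.nth (· ∈ Q) k)) ^ 2)) atTop

/-- windows without elements give gaps -/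
theorem LL_ge (Q : Set ℕ) (hQ : Q.Infinite) (hQp : ∀ q ∈ Q, q.Prime) (t : ℝ) (ht : 0 ≤ t)
    (h : ∃ᶠ n : ℕ in atTop, ∀ p : ℕ, p.Prime → n < p → (p : ℝ) ≤ n + t * (Real.log n) ^ 2 → p ∉ Q) :
    ENNReal.ofReal t ≤ LL Q := by
  classical
  have hQ' : (Set.ofPred (· ∈ Q)).Infinite := hQ
  apply le_limsup_of_frequently_le
  · rw [frequently_atTop]
    intro K
    obtain ⟨n, hnK, hn⟩ := frequently_atTop.1 h (Nat.nth (· ∈ Q) K + 2)
    set k : ℕ := Nat.count (· ∈ Q) (n + 1) with hk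
    have h1 : K < k := by
      rw [hk]
      have h2 : Nat.count (· ∈ Q) (Nat.nth (· ∈ Q) K + 1) = K + 1 := Nat.count_nth_succ_of_infinite hQ' K
      have h3 : Nat.count (· ∈ Q) (Nat.nth (· ∈ Q) K + 1) ≤ Nat.count (· ∈ Q) (n + 1) :=
        Nat.count_monotone _ (by omega)
      omega
    refine ⟨k - 1, by omega, ?_⟩
    have hk1 : k - 1 + 1 = k := by omega
    rw [hk1]
    set a : ℕ := Nat.nth (· ∈ Q) (k - 1) with ha
    set b : ℕ := Nat.nth (· ∈ Q) k with hb
    have ha1 : a < n + 1 := Nat.nth_lt_of_lt_count (by omega)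
    have hb1 : n + 1 ≤ b := Nat.le_nth_count hQ' (n + 1)
    have haQ : a ∈ Q := Nat.nth_mem_of_infinite hQ' _
    have hbQ : b ∈ Q := Nat.nth_mem_of_infinite hQ' _
    have ha2 : 2 ≤ a := (hQp a haQ).two_le
    have hb2 : (n : ℝ) + t * (Real.log n) ^ 2 < b := by
      by_contra hcon
      push Not at hcon
      exact hn b (hQp b hbQ) (by omega) hcon hbQ
    have ha2' : (2 : ℝ) ≤ a := by exact_mod_cast ha2
    have hla : 0 < Real.log a := Real.log_pos (by linarith)
    have han : (a : ℝ) ≤ n := by exact_mod_cast Nat.lt_succ_iff.1 ha1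
    have hln : Real.log a ≤ Real.log n := Real.log_le_log (by linarith) han
    apply ENNReal.ofReal_le_ofReal
    rw [le_div_iff₀ (by positivity)]
    have h4 : t * (Real.log a) ^ 2 ≤ t * (Real.log n) ^ 2 := by gcongr
    linarith
  · isBoundedDefault

theorem slow_const (d : ℝ) (hd : 0 < d) : Slow (fun _ => d) := by
  refine ⟨⟨d, hd, Eventually.of_forall fun _ => le_rfl⟩, ?_, ?_⟩
  · exact tlog.const_div_atTop d
  · intro ε hε
    filter_upwards with n m _ _
    rw [sub_self, abs_zero]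
    positivity

theorem slow_loglog (B : ℝ) (hB : 0 < B) : Slow (fun n => B * Real.log (Real.log n)) := by
  have tl2 : Tendsto (fun n : ℕ => Real.log (Real.log (n : ℝ))) atTop atTop :=
    Real.tendsto_log_atTop.comp tlog
  refine ⟨⟨B, hB, ?_⟩, ?_, ?_⟩
  · filter_upwards [tl2.eventually_ge_atTop 1] with n hn
    nlinarith
  · have h1 : Tendsto (fun x : ℝ => Real.log x / x) atTop (𝓝 0) :=
      Real.isLittleO_log_id_atTop.tendsto_div_nhds_zero
    have h2 := (h1.comp tlog).const_mul B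
    rw [mul_zero] at h2
    refine h2.congr (fun n => ?_)
    simp only [Function.comp]
    ring
  · intro ε hε
    filter_upwards [tl2.eventually_ge_atTop (1 / ε), tl2.eventually_ge_atTop 0,
      tlog.eventually_ge_atTop 1, eventually_ge_atTop 1] with n h1 h2 h3 h4 m h5 h6
    have hn0 : (0 : ℝ) < n := by exact_mod_cast h4
    have hm0 : (n : ℝ) ≤ m := by exact_mod_cast h5
    have hm2 : (m : ℝ) ≤ 2 * n := by exact_mod_cast h6
    have hlm : Real.log n ≤ Real.log m := Real.log_le_log hn0 hm0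
    have hlm2 : Real.log m ≤ Real.log n + 1 := by
      have := Real.log_le_log (by linarith) hm2
      rw [Real.log_mul (by norm_num) hn0.ne'] at this
      have h7 := Real.log_two_lt_d9
      linarith
    have hll : Real.log (Real.log n) ≤ Real.log (Real.log m) := Real.log_le_log (by linarith) hlm
    have hll2 : Real.log (Real.log m) ≤ Real.log (Real.log n) + 1 := by
      have h8 : Real.log m ≤ Real.log n * 2 := by linarith
      have := Real.log_le_log (by linarith) h8
      rw [Real.log_mul (by linarith) (by norm_num)] at this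
      have h7 := Real.log_two_lt_d9
      linarith
    have h9 : 1 ≤ ε * Real.log (Real.log n) := by
      rw [div_le_iff₀ hε] at h1
      linarith
    rw [abs_of_nonneg (by nlinarith)]
    nlinarith

/-- constant deletion probability at least `e^{-d}` -/
theorem LL_const (d : ℝ) (hd : 0 < d) {A : ℕ → Set Ω} (hm : ∀ p, MeasurableSet (A p))
    (hA : iIndepSet A μ) (hδ : ∀ᶠ p : ℕ in atTop, p.Prime → Real.exp (-d) ≤ μ.real (A p)) :
    ∀ᵐ ω ∂μ, {p : ℕ | p.Prime ∧ ω ∉ A p}.Infinite →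
      ENNReal.ofReal (GG / d) ≤ LL {p : ℕ | p.Prime ∧ ω ∉ A p} := by
  filter_upwards [windows_all (fun _ => d) (slow_const d hd) hm hA hδ] with ω hω hinf
  have h1 : ∀ j : ℕ, ENNReal.ofReal ((GG - GG / (j + 1)) / d) ≤ LL {p : ℕ | p.Prime ∧ ω ∉ A p} := by
    intro j
    have hj : (0 : ℝ) < (j : ℝ) + 1 := by positivity
    have hG := GG_pos
    apply LL_ge _ hinf (fun q hq => hq.1)
    · apply div_nonneg _ hd.le
      rw [sub_nonneg, div_le_iff₀ hj]
      have h0 : (0 : ℝ) ≤ j := Nat.cast_nonneg j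
      nlinarith
    · refine (hω (GG / (j + 1)) (by positivity)).mono ?_
      intro n hn p hp h2 h3 h4
      exact h4.2 (hn p hp h2 (by rw [mul_div_right_comm]; exact h3))
  have h2 : Tendsto (fun j : ℕ => ENNReal.ofReal ((GG - GG / (j + 1)) / d)) atTop
      (𝓝 (ENNReal.ofReal (GG / d))) := by
    apply ENNReal.tendsto_ofReal
    have h3 : Tendsto (fun j : ℕ => (GG - GG / ((j : ℝ) + 1)) / d) atTop (𝓝 ((GG - 0) / d)) := by
      apply Tendsto.div_const
      apply Tendsto.const_sub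
      have := tendsto_one_div_add_atTop_nhds_zero_nat (𝕜 := ℝ)
      have h4 := this.const_mul GG
      rw [mul_zero] at h4
      refine h4.congr (fun j => by ring)
    rw [sub_zero] at h3
    exact h3
  exact le_of_tendsto' h2 h1

omit [IsProbabilityMeasure μ] in
/-- complements of independent events -/
theorem compl_indep {A : ℕ → Set Ω} (hA : iIndepSet A μ) : iIndepSet (fun p => (A p)ᶜ) μ := by
  rw [iIndepSet_iff_iIndep] at *
  have h : (fun i => MeasurableSpace.generateFrom {(A i)ᶜ}) = fun i => MeasurableSpace.generateFrom {A i} := by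
    funext i
    apply le_antisymm
    · apply MeasurableSpace.generateFrom_le
      intro t ht
      rw [Set.mem_singleton_iff.1 ht]
      exact (MeasurableSpace.measurableSet_generateFrom (Set.mem_singleton _)).compl
    · apply MeasurableSpace.generateFrom_le
      intro t ht
      rw [Set.mem_singleton_iff.1 ht]
      have : MeasurableSet[MeasurableSpace.generateFrom {(A i)ᶜ}] ((A i)ᶜ)ᶜ :=
        (MeasurableSpace.measurableSet_generateFrom (Set.mem_singleton _)).compl
      rwa [compl_compl] at this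
  rw [h]
  exact hA

/-- infinitely many primes remain -/
theorem remain {ρ : ℝ} (hρ : 0 < ρ) {A : ℕ → Set Ω} (hm : ∀ p, MeasurableSet (A p))
    (hA : iIndepSet A μ) (hδ : ∀ p : ℕ, p.Prime → μ.real (A p) = 1 - ρ) :
    ∀ᵐ ω ∂μ, {p : ℕ | p.Prime ∧ ω ∉ A p}.Infinite := by
  classical
  have h := ae_complete (μ := μ) (fun p => (hm p).compl) (compl_indep hA) (1 / 2) (by norm_num)
    (fun x i T => x ≤ i ∧ i.Prime ∧ T = {i}) ?_
  · filter_upwards [h] with ω hω
    rw [Set.infinite_iff_exists_gt]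
    intro N
    obtain ⟨x₀, hx₀⟩ := eventually_atTop.1 hω
    obtain ⟨i, T, ⟨h1, h2, h3⟩, h4⟩ := hx₀ (max x₀ (N + 1)) (le_max_left _ _)
    refine ⟨i, ⟨h2, ?_⟩, ?_⟩
    · have := h4 i (by rw [h3]; exact Finset.mem_singleton_self _)
      exact this
    · have := le_max_right x₀ (N + 1)
      omega
  · have t1 : ∀ᶠ x : ℕ in atTop, 1 / ρ ≤ (x : ℝ) ^ (1 / 2 : ℝ) :=
      ((tendsto_rpow_atTop (by norm_num : (0 : ℝ) < 1 / 2)).comp
        tendsto_natCast_atTop_atTop).eventually_ge_atTop _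
    filter_upwards [t1, eventually_ge_atTop 1] with x g1 g2
    have hx0 : (0 : ℝ) < x := by exact_mod_cast g2
    refine ⟨(range x).image (fun j => Nat.nth Nat.Prime (x + j)), fun i => {i}, ?_, ?_, ?_⟩
    · intro i _ j _ hij
      rw [Finset.disjoint_singleton]
      exact hij
    · intro i hi
      rw [Finset.mem_image] at hi
      obtain ⟨j, _, rfl⟩ := hi
      refine ⟨?_, Nat.prime_nth_prime _, rfl⟩
      exact (Nat.le_add_right x j).trans (Nat.nth_strictMono Nat.infinite_setOfPred_prime).le_apply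
    · have hval : ∀ i ∈ (range x).image (fun j => Nat.nth Nat.Prime (x + j)),
          ∏ p ∈ ({i} : Finset ℕ), μ.real ((A p)ᶜ) = ρ := by
        intro i hi
        rw [Finset.mem_image] at hi
        obtain ⟨j, _, rfl⟩ := hi
        rw [Finset.prod_singleton, probReal_compl_eq_one_sub (hm _), hδ _ (Nat.prime_nth_prime _)]
        ring
      rw [Finset.sum_congr rfl hval, Finset.sum_const, Finset.card_image_of_injective, card_range,
        nsmul_eq_mul]
      · have h5 : (x : ℝ) = (x : ℝ) ^ (1 / 2 : ℝ) * (x : ℝ) ^ (1 / 2 : ℝ) := by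
          rw [← Real.rpow_add hx0]
          norm_num
        have h6 : 1 ≤ (x : ℝ) ^ (1 / 2 : ℝ) * ρ := by
          rw [div_le_iff₀ hρ] at g1
          exact g1
        calc (x : ℝ) ^ (1 / 2 : ℝ) = (x : ℝ) ^ (1 / 2 : ℝ) * 1 := by ring
          _ ≤ (x : ℝ) ^ (1 / 2 : ℝ) * ((x : ℝ) ^ (1 / 2 : ℝ) * ρ) := by gcongr
          _ = (x : ℝ) * ρ := by rw [← mul_assoc, ← h5]
      · intro a b hab
        have := (Nat.nth_strictMono Nat.infinite_setOfPred_prime).injective hab
        omega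

theorem gamma_bound : Real.eulerMascheroniConstant < 7 / 12 := by
  have h1 := TH456.HN.gamma_lt_u 4
  unfold TH456.HN.u at h1
  have h2 : ((harmonic 4 : ℚ) : ℝ) = 25 / 12 := by
    have : harmonic 4 = 25 / 12 := by
      rw [harmonic]
      norm_num [Finset.sum_range_succ]
    rw [this]; norm_num
  rw [h2] at h1
  have h3 : (3 / 2 : ℝ) ≤ Real.log ((4 : ℕ) + 1 / 2) := by
    rw [Real.le_log_iff_exp_le (by positivity)]
    have h4 : Real.exp (3 / 2) ^ 2 = Real.exp 1 ^ 3 := by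
      rw [← Real.exp_nat_mul, ← Real.exp_nat_mul]
      norm_num
    have h5 := Real.exp_one_lt_d9
    have h6 : Real.exp 1 ^ 3 ≤ (2.7182818286 : ℝ) ^ 3 := by
      gcongr
    have h7 : Real.exp (3 / 2) ^ 2 ≤ (4.5 : ℝ) ^ 2 := by
      rw [h4]
      refine h6.trans ?_
      norm_num
    have h8 := abs_le_of_sq_le_sq h7 (by norm_num)
    have h9 := (abs_le.1 h8).2
    push_cast
    linarith
  linarith

theorem five_log : 5 * Real.log (5 / 4) < GG := by
  have h1 := gamma_bound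
  have h2 : 2 * Real.exp (-(7 / 12 : ℝ)) < GG := by
    unfold GG
    have := Real.exp_lt_exp.2 (neg_lt_neg h1)
    linarith
  have h3 : Real.exp (7 / 12) ≤ 1.7925 := by
    have h4 : Real.exp (7 / 12) ^ 12 = Real.exp 1 ^ 7 := by
      rw [← Real.exp_nat_mul, ← Real.exp_nat_mul]
      norm_num
    have h5 := Real.exp_one_lt_d9
    have h6 : Real.exp 1 ^ 7 ≤ (2.7182818286 : ℝ) ^ 7 := by
      gcongr
    by_contra hcon
    push Not at hcon
    have h7 : (1.7925 : ℝ) ^ 12 < Real.exp (7 / 12) ^ 12 := by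
      gcongr
    rw [h4] at h7
    have h8 := h7.trans_le h6
    norm_num at h8
  have h9 : Real.log (5 / 4) ≤ 0.22315 := by
    rw [Real.log_le_iff_le_exp (by norm_num)]
    have := Real.sum_le_exp_of_nonneg (show (0 : ℝ) ≤ 0.22315 by norm_num) 6
    refine le_trans ?_ this
    norm_num [Finset.sum_range_succ, Nat.factorial]
  have h10 : (1.7925 : ℝ)⁻¹ ≤ Real.exp (-(7 / 12 : ℝ)) := by
    rw [Real.exp_neg]
    gcongr
  have h11 : (0.55788 : ℝ) ≤ (1.7925 : ℝ)⁻¹ := by norm_num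
  linarith

theorem log_chord (ρ : ℝ) (h0 : 0 < ρ) (h1 : ρ ≤ 1 / 5) :
    -Real.log (1 - ρ) ≤ 5 * ρ * Real.log (5 / 4) := by
  have h2 := strictConcaveOn_log_Ioi.concaveOn.2 (show (1 : ℝ) ∈ Set.Ioi 0 by norm_num)
    (show (4 / 5 : ℝ) ∈ Set.Ioi 0 by norm_num) (show 0 ≤ 1 - 5 * ρ by linarith)
    (show 0 ≤ 5 * ρ by linarith) (by ring)
  rw [smul_eq_mul, smul_eq_mul, smul_eq_mul, smul_eq_mul, Real.log_one] at h2
  have h3 : (1 - 5 * ρ) * 1 + 5 * ρ * (4 / 5) = 1 - ρ := by ring
  rw [h3] at h2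
  have h4 : Real.log (5 / 4) = -Real.log (4 / 5) := by
    rw [← Real.log_inv]; norm_num
  rw [h4]
  linarith

/-- a random subset of relative density `ρ ≤ 1 / 5` has larger gaps than in Cramér's model -/
theorem beats (ρ : ℝ) (h0 : 0 < ρ) (h1 : ρ ≤ 1 / 5) : 1 / ρ < GG / (-Real.log (1 - ρ)) := by
  have h2 := log_chord ρ h0 h1
  have h3 := five_log
  have h4 : 0 < -Real.log (1 - ρ) := by
    have := Real.log_neg (show 0 < 1 - ρ by linarith) (by linarith)
    linarith
  rw [div_lt_div_iff₀ h0 h4, one_mul]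
  calc -Real.log (1 - ρ) ≤ 5 * ρ * Real.log (5 / 4) := h2
    _ = ρ * (5 * Real.log (5 / 4)) := by ring
    _ < ρ * GG := by gcongr
    _ = GG * ρ := by ring

theorem thin (ρ : ℝ) (h0 : 0 < ρ) (h1 : ρ < 1) {A : ℕ → Set Ω} (hm : ∀ p, MeasurableSet (A p))
    (hA : iIndepSet A μ) (hδ : ∀ p : ℕ, p.Prime → μ.real (A p) = 1 - ρ) :
    ∀ᵐ ω ∂μ, {p : ℕ | p.Prime ∧ ω ∉ A p}.Infinite ∧
      ENNReal.ofReal (GG / (-Real.log (1 - ρ))) ≤ LL {p : ℕ | p.Prime ∧ ω ∉ A p} := by
  have h4 : 0 < -Real.log (1 - ρ) := by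
    have := Real.log_neg (show 0 < 1 - ρ by linarith) (by linarith)
    linarith
  have h5 : ∀ᶠ p : ℕ in atTop, p.Prime → Real.exp (-(-Real.log (1 - ρ))) ≤ μ.real (A p) := by
    filter_upwards with p hp
    rw [neg_neg, Real.exp_log (by linarith), hδ p hp]
  filter_upwards [remain h0 hm hA hδ, LL_const _ h4 hm hA h5] with ω g1 g2
  exact ⟨g1, g2 g1⟩

end Pool.Agent.U839.Thin
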