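import Mathlib
import Pool.Agent.U839.Thin.Fin

set_option autoImplicit false

/-! # Mixtures of the primes with Cramér's model -/

open MeasureTheory ProbabilityTheory Filter Finset Topology
open Pool.Agent.H510R2.Maier (cntP cntP_eq)

namespace Pool.Agent.U839.Thin

set_option maxHeartbeats 4000000 in
/-- many disjoint windows with few primes -/
theorem select (κ c η : ℝ) (hκ : 0 < κ) (hc : 0 < c) (hcG : c < GG * κ) (hη : 0 < η)
    (hη1 : η ≤ 1 / 10) (N : ℕ) : ∀ᶠ x : ℕ in atTop, ∃ S : Finset ℕ,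
      (∀ n ∈ S, N ≤ n ∧ (x : ℝ) ^ (1 / 2 : ℝ) ≤ n ∧ n ≤ x ∧
        (cntP Nat.Prime n ⌊c * (Real.log n) ^ 2⌋₊ : ℝ) ≤ κ * Real.log n) ∧
      (∀ i ∈ S, ∀ j ∈ S, i ≠ j → Disjoint (Ioc i (i + ⌊c * (Real.log i) ^ 2⌋₊))
        (Ioc j (j + ⌊c * (Real.log j) ^ 2⌋₊))) ∧
      (x : ℝ) ^ η ≤ S.card * (x : ℝ) ^ (-(1 - 3 * η)) := by
  classical
  have hff := Pool.Agent.H510R2.Maier.G.few_freq κ c (η / 2) hκ hcG (by positivity)
  have tsq : ∀ᶠ x : ℕ in atTop, (N : ℝ) ≤ (x : ℝ) ^ (1 / 2 : ℝ) :=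
    ((tendsto_rpow_atTop (by norm_num : (0 : ℝ) < 1 / 2)).comp
      tendsto_natCast_atTop_atTop).eventually_ge_atTop _
  filter_upwards [hff, ev_arith c η hc hη hη1, tsq, eventually_ge_atTop 1] with x g1 g2 g3 g4
  have hx1 : (1 : ℝ) ≤ x := by exact_mod_cast g4
  have hx0 : (0 : ℝ) < x := by linarith
  have hLx : 0 ≤ Real.log x := Real.log_natCast_nonneg x
  set S₀ : Finset ℕ := (Icc 1 x).filter (fun n : ℕ =>
    (cntP Nat.Prime n ⌊c * (Real.log n) ^ 2⌋₊ : ℝ) ≤ κ * Real.log n) with hS₀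
  have hS₀c : (x : ℝ) ^ (1 - η / 2) ≤ S₀.card := by
    unfold Pool.Agent.H510R2.Maier.G.NF at g1
    convert g1
  set S₁ : Finset ℕ := S₀.filter (fun n : ℕ => (x : ℝ) ^ (1 / 2 : ℝ) ≤ n) with hS₁
  have hS₁c : (x : ℝ) ^ (1 - η / 2) - ((x : ℝ) ^ (1 / 2 : ℝ) + 1) ≤ S₁.card := by
    have h1 : S₀.card ≤ S₁.card + (range (⌊(x : ℝ) ^ (1 / 2 : ℝ)⌋₊ + 1)).card := by
      rw [← Finset.card_filter_add_card_filter_not (s := S₀) (fun n : ℕ => (x : ℝ) ^ (1 / 2 : ℝ) ≤ n)]
      apply Nat.add_le_add le_rfl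
      apply Finset.card_le_card
      intro n hn
      rw [Finset.mem_filter, not_le] at hn
      rw [Finset.mem_range]
      exact Nat.lt_succ_of_le (Nat.le_floor hn.2.le)
    rw [Finset.card_range] at h1
    have h2 : (S₀.card : ℝ) ≤ S₁.card + (⌊(x : ℝ) ^ (1 / 2 : ℝ)⌋₊ + 1) := by exact_mod_cast h1
    have h3 : (⌊(x : ℝ) ^ (1 / 2 : ℝ)⌋₊ : ℝ) ≤ (x : ℝ) ^ (1 / 2 : ℝ) :=
      Nat.floor_le (by positivity)
    linarith
  set M : ℕ := ⌊c * (Real.log x) ^ 2⌋₊ + 1 with hM
  obtain ⟨r, hr⟩ := residue S₁ M (Nat.succ_pos _)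
  set S : Finset ℕ := S₁.filter (fun n => n % M = r) with hS
  have hmem : ∀ n ∈ S, (1 ≤ n ∧ n ≤ x) ∧
      (cntP Nat.Prime n ⌊c * (Real.log n) ^ 2⌋₊ : ℝ) ≤ κ * Real.log n ∧
      (x : ℝ) ^ (1 / 2 : ℝ) ≤ n ∧ n % M = r := by
    intro n hn
    rw [hS, Finset.mem_filter, hS₁, Finset.mem_filter, hS₀, Finset.mem_filter, Finset.mem_Icc] at hn
    exact ⟨hn.1.1.1, hn.1.1.2, hn.1.2, hn.2⟩
  have hYM : ∀ n ∈ S, ⌊c * (Real.log n) ^ 2⌋₊ < M := by
    intro n hn
    rw [hM]
    apply Nat.lt_succ_of_le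
    apply Nat.floor_le_floor
    have h5 : Real.log n ≤ Real.log x :=
      Real.log_le_log (by exact_mod_cast (hmem n hn).1.1) (by exact_mod_cast (hmem n hn).1.2)
    have h6 : 0 ≤ Real.log n := Real.log_natCast_nonneg n
    gcongr
  refine ⟨S, ?_, ?_, ?_⟩
  · intro n hn
    have h1 := hmem n hn
    refine ⟨?_, h1.2.2.1, h1.1.2, h1.2.1⟩
    have := g3.trans h1.2.2.1
    exact_mod_cast this
  · intro i hi j hj hij
    rw [Finset.disjoint_left]
    intro p hp hp'
    rw [Finset.mem_Ioc] at hp hp'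
    have a3 := hYM i hi
    have b3 := hYM j hj
    have c1 := (hmem i hi).2.2.2
    have c2 := (hmem j hj).2.2.2
    have hmod : i ≡ j [MOD M] := by
      show i % M = j % M
      rw [c1, c2]
    rcases lt_or_gt_of_ne hij with h | h
    · have h5 : M ∣ j - i := (Nat.modEq_iff_dvd' h.le).1 hmod
      have h6 := Nat.le_of_dvd (by omega) h5
      omega
    · have h5 : M ∣ i - j := (Nat.modEq_iff_dvd' h.le).1 hmod.symm
      have h6 := Nat.le_of_dvd (by omega) h5
      omega
  · have hScard : ((x : ℝ) ^ (1 - η / 2) - ((x : ℝ) ^ (1 / 2 : ℝ) + 1)) /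
        (c * (Real.log x) ^ 2 + 1) ≤ S.card := by
      rw [div_le_iff₀ (by positivity)]
      have h5 : (S₁.card : ℝ) ≤ M * S.card := by exact_mod_cast hr
      have h6 : (M : ℝ) ≤ c * (Real.log x) ^ 2 + 1 := by
        rw [hM]
        push_cast
        have := Nat.floor_le (show 0 ≤ c * (Real.log x) ^ 2 by positivity)
        linarith
      calc _ ≤ (S₁.card : ℝ) := hS₁c
        _ ≤ M * S.card := h5
        _ ≤ (c * (Real.log x) ^ 2 + 1) * S.card := by gcongr
        _ = _ := by ring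
    calc (x : ℝ) ^ η ≤ _ := g2
      _ ≤ S.card * (x : ℝ) ^ (-(1 - 3 * η)) := by gcongr

variable {Ω : Type*} [MeasurableSpace Ω] {μ : Measure Ω} [IsProbabilityMeasure μ]

/-- elementary bound for `1 - x` -/
theorem one_sub_ge (x : ℝ) (hx : 0 ≤ x) (hx1 : x ≤ 1 / 2) : Real.exp (-(x + 2 * x ^ 2)) ≤ 1 - x := by
  have h1 : 0 < 1 - x := by linarith
  rw [← Real.le_log_iff_exp_le h1]
  have h2 := Real.one_sub_inv_le_log_of_pos h1
  have h3 : 1 - (1 - x)⁻¹ = -(x / (1 - x)) := by
    field_simp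
    ring
  rw [h3] at h2
  refine le_trans ?_ h2
  rw [neg_le_neg_iff, div_le_iff₀ h1]
  nlinarith [mul_nonneg hx hx, mul_nonneg (mul_nonneg hx hx) (show 0 ≤ 1 - 2 * x by linarith)]

theorem card_prime_Ioc (n Y : ℕ) :
    (((Ioc n (n + Y)).filter Nat.Prime).card : ℝ) = (cntP Nat.Prime n Y : ℝ) := by
  rw [← card_PW]
  rfl

set_option maxHeartbeats 4000000 in
/-- empty windows of the mixture -/
theorem mix_lower (α : ℝ) (h0 : 0 ≤ α) (h1 : α < 1) {E : ℕ → Set Ω} (hm : ∀ n, MeasurableSet (E n))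
    (hE : iIndepSet E μ)
    (hP : ∀ᶠ n : ℕ in atTop, μ.real (E n) = (if n.Prime then α else 0) + (1 - α) / Real.log n)
    (c : ℝ) (hc0 : 0 < c) (hc : c * ((1 - α) + -Real.log (1 - α) / GG) < 1) :
    ∀ᵐ ω ∂μ, ∃ᶠ n : ℕ in atTop, ∀ m : ℕ, n < m → (m : ℝ) ≤ n + c * (Real.log n) ^ 2 → ω ∉ E m := by
  classical
  have hG := GG_pos
  set d : ℝ := -Real.log (1 - α) with hd
  have hα : 0 < 1 - α := by linarith
  have hd0 : 0 ≤ d := by
    have := Real.log_nonpos hα.le (by linarith)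
    linarith
  -- choice of κ
  obtain ⟨κ, hκ1, hκ2⟩ : ∃ κ : ℝ, c < GG * κ ∧ (1 - α) * c + d * κ < 1 := by
    have h2 : (1 - α) * c + d * (c / GG) < 1 := by
      have : (1 - α) * c + d * (c / GG) = c * ((1 - α) + d / GG) := by ring
      rw [this]; exact hc
    obtain ⟨τ, hτ, hτ2⟩ : ∃ τ : ℝ, 0 < τ ∧ (1 - α) * c + d * (c / GG) + d * τ < 1 := by
      refine ⟨(1 - ((1 - α) * c + d * (c / GG))) / (2 * (d + 1)), by
        apply div_pos <;> linarith, ?_⟩
      have h3 : d * ((1 - ((1 - α) * c + d * (c / GG))) / (2 * (d + 1))) ≤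
          (1 - ((1 - α) * c + d * (c / GG))) / 2 := by
        rw [mul_div_assoc', div_le_div_iff₀ (by linarith) (by norm_num)]
        nlinarith
      linarith
    refine ⟨c / GG + τ, ?_, ?_⟩
    · have : GG * (c / GG + τ) = c + GG * τ := by field_simp
      rw [this]
      have := mul_pos hG hτ
      linarith
    · rw [mul_add]; linarith
  have hκ0 : 0 < κ := by
    by_contra hcon
    push Not at hcon
    have := mul_nonpos_of_nonneg_of_nonpos hG.le hcon
    linarith
  set base : ℝ := (1 - α) * c + d * κ with hbase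
  set η : ℝ := min (1 / 10) ((1 - base) / (3 + c + κ)) with hηd
  have hη : 0 < η := lt_min (by norm_num) (div_pos (by linarith) (by linarith))
  have hη1 : η ≤ 1 / 10 := min_le_left _ _
  have hη2 : (1 - α) * (1 + η) * c + (d + η) * κ ≤ 1 - 3 * η := by
    have h2 : η * (3 + c + κ) ≤ 1 - base := by
      have : η ≤ (1 - base) / (3 + c + κ) := min_le_right _ _
      rwa [le_div_iff₀ (by linarith)] at this
    have h3 : (1 - α) * (η * c) ≤ 1 * (η * c) := by
      apply mul_le_mul_of_nonneg_right (by linarith)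
      positivity
    have h4 : (1 - α) * (1 + η) * c + (d + η) * κ = base + ((1 - α) * (η * c) + η * κ) := by
      rw [hbase]; ring
    rw [h4]
    linarith
  obtain ⟨n₁, hn₁⟩ := eventually_atTop.1 hP
  obtain ⟨n₂, hn₂⟩ := eventually_atTop.1 (tlog.eventually_ge_atTop (max (4 / η) 4))
  have key := ae_complete (μ := μ) (fun p => (hm p).compl) (compl_indep hE) η hη
    (fun x i T => (x : ℝ) ^ (1 / 2 : ℝ) ≤ i ∧ T = Ioc i (i + ⌊c * (Real.log i) ^ 2⌋₊)) ?_
  · filter_upwards [key] with ω hω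
    rw [frequently_atTop]
    intro N
    obtain ⟨x₀, hx₀⟩ := eventually_atTop.1 hω
    obtain ⟨i, T, ⟨g1, g4⟩, g5⟩ := hx₀ (max x₀ (N ^ 2)) (le_max_left _ _)
    refine ⟨i, ?_, ?_⟩
    · have h6 : (N : ℝ) ≤ i := by
        refine le_trans ?_ g1
        rw [← Real.sqrt_eq_rpow]
        apply Real.le_sqrt_of_sq_le
        exact_mod_cast le_max_right x₀ (N ^ 2)
      exact_mod_cast h6
    · intro p g6 g7
      have h8 := g5 p (by
        rw [g4, Finset.mem_Ioc]
        refine ⟨g6, ?_⟩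
        have : ((p - i : ℕ) : ℝ) ≤ c * (Real.log i) ^ 2 := by
          rw [Nat.cast_sub g6.le]
          linarith
        have := Nat.le_floor this
        omega)
      exact h8
  · filter_upwards [select κ c η hκ0 hc0 hκ1 hη hη1 (max n₁ n₂), eventually_ge_atTop 1] with x g1 g2
    obtain ⟨S, hS1, hS2, hS3⟩ := g1
    have hx0 : (0 : ℝ) < x := by exact_mod_cast g2
    refine ⟨S, fun i => Ioc i (i + ⌊c * (Real.log i) ^ 2⌋₊), hS2, fun i hi => ⟨(hS1 i hi).2.1, rfl⟩, ?_⟩
    refine hS3.trans ?_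
    rw [← nsmul_eq_mul, ← Finset.sum_const]
    apply Finset.sum_le_sum
    intro n hn
    obtain ⟨s1, s2, s3, s4⟩ := hS1 n hn
    have k1 : n₁ ≤ n := (le_max_left _ _).trans s1
    have k2 := hn₂ n ((le_max_right _ _).trans s1)
    have k3 : 4 / η ≤ Real.log n := (le_max_left _ _).trans k2
    have k4 : 4 ≤ Real.log n := (le_max_right _ _).trans k2
    have hL : 0 < Real.log n := by linarith
    have hn0 : (0 : ℝ) < n := by
      rcases Nat.eq_zero_or_pos n with h | h
      · rw [h] at k4; simp at k4; linarith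
      · exact_mod_cast h
    set L : ℝ := Real.log n with hLdef
    set Y : ℕ := ⌊c * L ^ 2⌋₊ with hY
    have k5 : 4 / L ≤ η := by
      rw [div_le_iff₀ hη] at k3
      rw [div_le_iff₀ hL]
      linarith
    have hfac : ∀ m ∈ Ioc n (n + Y), Real.exp (-((1 - α) * (1 + η) / L +
        (if m.Prime then d + η else 0))) ≤ μ.real (E m)ᶜ := by
      intro m hmm
      rw [Finset.mem_Ioc] at hmm
      rw [probReal_compl_eq_one_sub (hm m), hn₁ m (k1.trans hmm.1.le)]
      have hlm : L ≤ Real.log m := Real.log_le_log hn0 (by exact_mod_cast hmm.1.le)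
      have hlm0 : 0 < Real.log m := by linarith
      set y : ℝ := 1 / Real.log m with hy
      have hy0 : 0 < y := by positivity
      have hyL : y ≤ 1 / L := one_div_le_one_div_of_le hL hlm
      have hy4 : y ≤ 1 / 4 := hyL.trans (one_div_le_one_div_of_le (by norm_num) k4)
      have hyη : 4 * y ≤ η := by
        refine le_trans ?_ k5
        rw [div_eq_mul_one_div]
        linarith
      split_ifs with hprime
      · -- prime
        have e1 : 1 - (α + (1 - α) / Real.log m) = (1 - α) * (1 - y) := by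
          rw [hy]; ring
        rw [e1]
        have e2 : 1 - α = Real.exp (-d) := by
          rw [hd, neg_neg, Real.exp_log hα]
        have e3 := one_sub_ge y hy0.le (by linarith)
        calc Real.exp (-((1 - α) * (1 + η) / L + (d + η))) ≤ Real.exp (-d + -(y + 2 * y ^ 2)) := by
              apply Real.exp_le_exp.2
              have e4 : 0 ≤ (1 - α) * (1 + η) / L := by positivity
              have e5 : y + 2 * y ^ 2 ≤ η := by nlinarith
              linarith
          _ = (1 - α) * Real.exp (-(y + 2 * y ^ 2)) := by rw [Real.exp_add, ← e2]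
          _ ≤ (1 - α) * (1 - y) := by gcongr
      · -- composite
        set z : ℝ := (1 - α) / Real.log m with hz
        have hzy : z = (1 - α) * y := by rw [hz, hy]; ring
        have hz0 : 0 ≤ z := by rw [hzy]; positivity
        have hz1 : z ≤ y := by rw [hzy]; nlinarith
        have e3 := one_sub_ge z hz0 (by linarith)
        rw [zero_add, add_zero]
        refine le_trans ?_ e3
        apply Real.exp_le_exp.2
        rw [neg_le_neg_iff]
        have e4 : z + 2 * z ^ 2 ≤ z * (1 + η) := by nlinarith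
        refine e4.trans ?_
        have e5 : z ≤ (1 - α) / L := by
          rw [hzy, div_eq_mul_one_div]
          gcongr
        calc z * (1 + η) ≤ (1 - α) / L * (1 + η) := by gcongr
          _ = _ := by ring
    calc (x : ℝ) ^ (-(1 - 3 * η)) = Real.exp (-((1 - 3 * η) * Real.log x)) := by
          rw [Real.rpow_def_of_pos hx0]
          congr 1
          ring
      _ ≤ Real.exp (-((1 - 3 * η) * L)) := by
          apply Real.exp_le_exp.2
          have h5 : L ≤ Real.log x := Real.log_le_log hn0 (by exact_mod_cast s3)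
          have h6 : 0 ≤ 1 - 3 * η := by linarith
          have := mul_le_mul_of_nonneg_left h5 h6
          linarith
      _ ≤ Real.exp (-(∑ m ∈ Ioc n (n + Y), ((1 - α) * (1 + η) / L +
            (if m.Prime then d + η else 0)))) := by
          apply Real.exp_le_exp.2
          rw [neg_le_neg_iff, Finset.sum_add_distrib, Finset.sum_const, Nat.card_Ioc,
            ← Finset.sum_filter, Finset.sum_const, nsmul_eq_mul, nsmul_eq_mul, card_prime_Ioc]
          have e1 : ((n + Y - n : ℕ) : ℝ) ≤ c * L ^ 2 := by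
            rw [Nat.add_sub_cancel_left]
            exact Nat.floor_le (by positivity)
          have e2 : ((n + Y - n : ℕ) : ℝ) * ((1 - α) * (1 + η) / L) ≤
              (1 - α) * (1 + η) * c * L := by
            calc ((n + Y - n : ℕ) : ℝ) * ((1 - α) * (1 + η) / L) ≤
                c * L ^ 2 * ((1 - α) * (1 + η) / L) := by gcongr
              _ = _ := by field_simp
          have e3 : (cntP Nat.Prime n Y : ℝ) * (d + η) ≤ κ * L * (d + η) := by
            apply mul_le_mul_of_nonneg_right s4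
            linarith
          have e4 : ((1 - α) * (1 + η) * c + (d + η) * κ) * L ≤ (1 - 3 * η) * L :=
            mul_le_mul_of_nonneg_right hη2 hL.le
          nlinarith
      _ = ∏ m ∈ Ioc n (n + Y), Real.exp (-((1 - α) * (1 + η) / L +
            (if m.Prime then d + η else 0))) := by
          rw [← Finset.sum_neg_distrib, Real.exp_sum]
      _ ≤ _ := Finset.prod_le_prod (fun m _ => (Real.exp_pos _).le) hfac

/-- elements in every window -/
theorem mix_upper (α : ℝ) (h0 : 0 ≤ α) (h1 : α < 1) {E : ℕ → Set Ω} (hm : ∀ n, MeasurableSet (E n))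
    (hE : iIndepSet E μ) (hP : ∀ᶠ n : ℕ in atTop, (1 - α) / Real.log n ≤ μ.real (E n))
    (c : ℝ) (hc : 1 < c * (1 - α)) :
    ∀ᵐ ω ∂μ, ∀ᶠ n : ℕ in atTop, ∃ m : ℕ, n < m ∧ (m : ℝ) ≤ n + c * (Real.log n) ^ 2 ∧ ω ∈ E m := by
  classical
  have hα : 0 < 1 - α := by linarith
  have hc0 : 0 < c := by
    by_contra hcon
    push Not at hcon
    have := mul_nonpos_of_nonpos_of_nonneg hcon hα.le
    linarith
  set δ : ℝ := (c * (1 - α) - 1) / 2 with hδ
  have hδ0 : 0 < δ := by rw [hδ]; linarith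
  obtain ⟨n₁, hn₁⟩ := eventually_atTop.1 hP
  set bad : ℕ → Set Ω := fun n => ⋂ m ∈ Ioc n (n + ⌊c * (Real.log n) ^ 2⌋₊), (E m)ᶜ with hbad
  have e2 : ∀ᶠ n : ℕ in atTop, c * (Real.log n) ^ 2 ≤ n := by
    have h1 := (isLittleO_log_rpow_atTop (r := 1 / 4) (by norm_num)).bound
      (show (0 : ℝ) < 1 by norm_num)
    have h2 := tendsto_natCast_atTop_atTop.eventually h1
    have h3 : ∀ᶠ n : ℕ in atTop, c ≤ (n : ℝ) ^ (1 / 2 : ℝ) :=
      ((tendsto_rpow_atTop (by norm_num : (0 : ℝ) < 1 / 2)).comp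
        tendsto_natCast_atTop_atTop).eventually_ge_atTop c
    filter_upwards [h2, h3, tlog.eventually_ge_atTop 0, eventually_ge_atTop 1] with n g1 g2 g3 g4
    have g5 : (0 : ℝ) < n := by exact_mod_cast g4
    rw [one_mul, Real.norm_of_nonneg g3, Real.norm_of_nonneg (by positivity)] at g1
    calc c * (Real.log n) ^ 2 ≤ (n : ℝ) ^ (1 / 2 : ℝ) * ((n : ℝ) ^ (1 / 4 : ℝ)) ^ 2 := by
          gcongr
      _ = (n : ℝ) ^ (1 / 2 : ℝ) * (n : ℝ) ^ (1 / 2 : ℝ) := by
          rw [← Real.rpow_natCast, ← Real.rpow_mul g5.le]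
          norm_num
      _ = n := by
          rw [← Real.rpow_add g5]
          norm_num
  have hb : ∀ᶠ n : ℕ in atTop, μ.real (bad n) ≤ 1 / (n : ℝ) ^ (1 + δ) := by
    filter_upwards [e2, eventually_ge_atTop (max n₁ 2), tlog.eventually_ge_atTop 1,
      tlog.eventually_ge_atTop ((3 + 2 * δ) / δ)] with n g1 g2 g3 g4
    have k1 : n₁ ≤ n := (le_max_left _ _).trans g2
    have k2 : 2 ≤ n := (le_max_right _ _).trans g2
    have hn0 : (0 : ℝ) < n := by exact_mod_cast (by omega : 0 < n)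
    set L : ℝ := Real.log n with hL
    have hL0 : 0 < L := by linarith
    set Y : ℕ := ⌊c * L ^ 2⌋₊ with hY
    have hYn : (Y : ℝ) ≤ n := (Nat.floor_le (by positivity)).trans g1
    have h3 : μ.real (bad n) = ∏ m ∈ Ioc n (n + Y), μ.real (E m)ᶜ := by
      have := (compl_indep hE).meas_biInter (Ioc n (n + Y))
      rw [hbad]
      simp only [measureReal_def]
      rw [this, ENNReal.toReal_prod]
    rw [h3]
    have h4 : ∀ m ∈ Ioc n (n + Y), μ.real (E m)ᶜ ≤ Real.exp (-((1 - α) / (L + 1))) := by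
      intro m hmm
      rw [Finset.mem_Ioc] at hmm
      rw [probReal_compl_eq_one_sub (hm m)]
      have h5 := hn₁ m (k1.trans hmm.1.le)
      have h6 : Real.log m ≤ L + 1 := by
        have h7 : (m : ℝ) ≤ 2 * n := by
          have : (m : ℝ) ≤ n + Y := by exact_mod_cast hmm.2
          linarith
        have hm0 : (0 : ℝ) < m := by exact_mod_cast (by omega : 0 < m)
        have := Real.log_le_log hm0 h7
        rw [Real.log_mul (by norm_num) hn0.ne'] at this
        have h8 := Real.log_two_lt_d9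
        linarith
      have h7 : 0 < Real.log m := Real.log_pos (by exact_mod_cast (by omega : 1 < m))
      have h8 : (1 - α) / (L + 1) ≤ (1 - α) / Real.log m := by gcongr
      have h9 := Real.add_one_le_exp (-((1 - α) / (L + 1)))
      linarith
    refine (Finset.prod_le_prod (fun m _ => measureReal_nonneg) h4).trans ?_
    rw [Finset.prod_const, Nat.card_Ioc, Nat.add_sub_cancel_left, ← Real.exp_nat_mul]
    have h5 : 1 / (n : ℝ) ^ (1 + δ) = Real.exp (-((1 + δ) * L)) := by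
      rw [Real.rpow_def_of_pos hn0, one_div, ← Real.exp_neg]
      congr 1
      ring
    rw [h5]
    apply Real.exp_le_exp.2
    rw [mul_neg, neg_le_neg_iff, mul_div_assoc', le_div_iff₀ (by linarith)]
    have h6 : c * L ^ 2 - 1 ≤ Y := (Nat.sub_one_lt_floor _).le
    have h7 : (1 + 2 * δ) * L ^ 2 - (1 - α) ≤ Y * (1 - α) := by
      have h8 : (c * L ^ 2 - 1) * (1 - α) ≤ Y * (1 - α) := by gcongr
      have h9 : 1 + 2 * δ = c * (1 - α) := by rw [hδ]; ring
      rw [h9]
      linarith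
    have h10 : (3 + 2 * δ) ≤ δ * L := by
      rw [div_le_iff₀ hδ0] at g4
      linarith
    have h11 : (3 + 2 * δ) * L ≤ δ * L * L := mul_le_mul_of_nonneg_right h10 hL0.le
    have h12 : (1 + δ) * L * (L + 1) ≤ Y * (1 - α) := by
      refine le_trans ?_ h7
      nlinarith
    exact h12
  obtain ⟨n₀, hn₀⟩ := eventually_atTop.1 hb
  set bad' : ℕ → Set Ω := fun n => if n₀ ≤ n then bad n else ∅ with hbad'
  have hsum : Summable (fun n : ℕ => 1 / (n : ℝ) ^ (1 + δ)) :=
    Real.summable_one_div_nat_rpow.2 (by linarith)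
  have htot : ∑' n, μ (bad' n) ≠ ⊤ := by
    have h5 : ∀ n, μ (bad' n) ≤ ENNReal.ofReal (1 / (n : ℝ) ^ (1 + δ)) := by
      intro n
      rw [hbad']
      simp only
      split_ifs with hn
      · rw [← ENNReal.ofReal_toReal (measure_ne_top μ (bad n))]
        exact ENNReal.ofReal_le_ofReal (hn₀ n hn)
      · simp
    exact ne_top_of_le_ne_top hsum.tsum_ofReal_ne_top (ENNReal.tsum_le_tsum h5)
  filter_upwards [ae_eventually_notMem htot] with ω hω
  filter_upwards [hω, eventually_ge_atTop n₀] with n hn hnn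
  rw [hbad'] at hn
  simp only [if_pos hnn] at hn
  rw [hbad] at hn
  simp only [Set.mem_iInter, not_forall] at hn
  obtain ⟨m, hm1, hm2⟩ := hn
  rw [Set.notMem_compl_iff] at hm2
  rw [Finset.mem_Ioc] at hm1
  refine ⟨m, hm1.1, ?_, hm2⟩
  have h6 : (m : ℝ) ≤ n + (⌊c * (Real.log n) ^ 2⌋₊ : ℝ) := by exact_mod_cast hm1.2
  have h7 := Nat.floor_le (show 0 ≤ c * (Real.log n) ^ 2 by positivity)
  linarith

/-- windows without elements give gaps (general sets) -/
theorem LL_ge' (Q : Set ℕ) (hQ : Q.Infinite) (t : ℝ) (ht : 0 ≤ t)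
    (h : ∃ᶠ n : ℕ in atTop, ∀ m : ℕ, n < m → (m : ℝ) ≤ n + t * (Real.log n) ^ 2 → m ∉ Q) :
    ENNReal.ofReal t ≤ LL Q := by
  classical
  have hQ' : (Set.ofPred (· ∈ Q)).Infinite := hQ
  apply le_limsup_of_frequently_le
  · rw [frequently_atTop]
    intro K
    obtain ⟨n, hnK, hn⟩ := frequently_atTop.1 h (Nat.nth (· ∈ Q) (K + 3) + 2)
    set k : ℕ := Nat.count (· ∈ Q) (n + 1) with hk
    have h1 : K + 3 < k := by
      rw [hk]
      have h2 : Nat.count (· ∈ Q) (Nat.nth (· ∈ Q) (K + 3) + 1) = K + 3 + 1 :=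
        Nat.count_nth_succ_of_infinite hQ' (K + 3)
      have h3 : Nat.count (· ∈ Q) (Nat.nth (· ∈ Q) (K + 3) + 1) ≤ Nat.count (· ∈ Q) (n + 1) :=
        Nat.count_monotone _ (by omega)
      omega
    refine ⟨k - 1, by omega, ?_⟩
    have hk1 : k - 1 + 1 = k := by omega
    rw [hk1]
    set a : ℕ := Nat.nth (· ∈ Q) (k - 1) with ha
    set b : ℕ := Nat.nth (· ∈ Q) k with hb
    have ha1 : a < n + 1 := Nat.nth_lt_of_lt_count (by omega)
    have hb1 : n + 1 ≤ b := Nat.le_nth_count hQ' (n + 1)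
    have hbQ : b ∈ Q := Nat.nth_mem_of_infinite hQ' _
    have ha2 : k - 1 ≤ a := (Nat.nth_strictMono hQ').le_apply
    have hb2 : (n : ℝ) + t * (Real.log n) ^ 2 < b := by
      by_contra hcon
      push Not at hcon
      exact hn b (by omega) hcon hbQ
    have ha2' : (2 : ℝ) ≤ a := by exact_mod_cast (by omega : 2 ≤ a)
    have hla : 0 < Real.log a := Real.log_pos (by linarith)
    have han : (a : ℝ) ≤ n := by exact_mod_cast Nat.lt_succ_iff.1 ha1
    have hln : Real.log a ≤ Real.log n := Real.log_le_log (by linarith) han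
    apply ENNReal.ofReal_le_ofReal
    rw [le_div_iff₀ (by positivity)]
    have h4 : t * (Real.log a) ^ 2 ≤ t * (Real.log n) ^ 2 := by gcongr
    linarith
  · isBoundedDefault

/-- an element in every window: upper bound for the gaps -/
theorem LL_le (Q : Set ℕ) (hQ : Q.Infinite) (t : ℝ)
    (h : ∀ᶠ n : ℕ in atTop, ∃ m : ℕ, n < m ∧ (m : ℝ) ≤ n + t * (Real.log n) ^ 2 ∧ m ∈ Q) :
    LL Q ≤ ENNReal.ofReal t := by
  classical
  have hQ' : (Set.ofPred (· ∈ Q)).Infinite := hQ
  have hmono := Nat.nth_strictMono hQ'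
  apply limsup_le_of_le
  · isBoundedDefault
  · have h2 := hmono.tendsto_atTop.eventually h
    filter_upwards [h2, eventually_ge_atTop 3] with k hk hk3
    obtain ⟨m, hm1, hm2, hm3⟩ := hk
    set a : ℕ := Nat.nth (· ∈ Q) k with ha
    set b : ℕ := Nat.nth (· ∈ Q) (k + 1) with hb
    have hka : k ≤ a := hmono.le_apply
    have hbm : b ≤ m := by
      have h3 : k < Nat.count (· ∈ Q) m := (Nat.lt_nth_iff_count_lt hQ').2 hm1
      have h4 : Nat.nth (· ∈ Q) (Nat.count (· ∈ Q) m) = m := Nat.nth_count (p := (· ∈ Q)) hm3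
      rw [← h4]
      exact hmono.monotone h3
    have ha2' : (2 : ℝ) ≤ a := by exact_mod_cast (by omega : 2 ≤ a)
    have hla : 0 < Real.log a := Real.log_pos (by linarith)
    apply ENNReal.ofReal_le_ofReal
    rw [div_le_iff₀ (by positivity)]
    have : (b : ℝ) ≤ m := by exact_mod_cast hbm
    linarith


/-- the two bounds for the mixture -/
theorem mix (α : ℝ) (h0 : 0 ≤ α) (h1 : α < 1) {E : ℕ → Set Ω} (hm : ∀ n, MeasurableSet (E n))
    (hE : iIndepSet E μ)
    (hP : ∀ᶠ n : ℕ in atTop, μ.real (E n) = (if n.Prime then α else 0) + (1 - α) / Real.log n) :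
    ∀ᵐ ω ∂μ, {n : ℕ | ω ∈ E n}.Infinite ∧
      ENNReal.ofReal (1 / ((1 - α) + -Real.log (1 - α) / GG)) ≤ LL {n : ℕ | ω ∈ E n} ∧
      LL {n : ℕ | ω ∈ E n} ≤ ENNReal.ofReal (1 / (1 - α)) := by
  have hG := GG_pos
  have hα : 0 < 1 - α := by linarith
  set d : ℝ := -Real.log (1 - α) with hd
  have hd0 : 0 ≤ d := by
    have := Real.log_nonpos hα.le (by linarith)
    linarith
  have hB : 0 < (1 - α) + d / GG := by positivity
  have hP2 : ∀ᶠ n : ℕ in atTop, (1 - α) / Real.log n ≤ μ.real (E n) := by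
    filter_upwards [hP] with n hn
    rw [hn]
    split_ifs <;> linarith
  -- upper windows
  have u1 : ∀ j : ℕ, ∀ᵐ ω ∂μ, ∀ᶠ n : ℕ in atTop, ∃ m : ℕ, n < m ∧
      (m : ℝ) ≤ n + ((1 + 1 / ((j : ℝ) + 1)) / (1 - α)) * (Real.log n) ^ 2 ∧ ω ∈ E m := by
    intro j
    apply mix_upper α h0 h1 hm hE hP2
    rw [div_mul_cancel₀ _ hα.ne']
    have : 0 < 1 / ((j : ℝ) + 1) := by positivity
    linarith
  have l1 : ∀ j : ℕ, ∀ᵐ ω ∂μ, ∃ᶠ n : ℕ in atTop, ∀ m : ℕ, n < m →
      (m : ℝ) ≤ n + ((1 - 1 / ((j : ℝ) + 2)) / ((1 - α) + d / GG)) * (Real.log n) ^ 2 → ω ∉ E m := by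
    intro j
    have hj : (0 : ℝ) < (j : ℝ) + 2 := by positivity
    have hj1 : 1 / ((j : ℝ) + 2) < 1 := by
      rw [div_lt_one hj]
      have : (0 : ℝ) ≤ j := Nat.cast_nonneg j
      linarith
    apply mix_lower α h0 h1 hm hE hP
    · apply div_pos _ hB
      linarith
    · rw [div_mul_cancel₀ _ hB.ne']
      have : 0 < 1 / ((j : ℝ) + 2) := by positivity
      linarith
  rw [← ae_all_iff] at u1 l1
  filter_upwards [u1, l1] with ω hu hl
  have hinf : {n : ℕ | ω ∈ E n}.Infinite := by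
    rw [Set.infinite_iff_exists_gt]
    intro N
    obtain ⟨n₀, hn₀⟩ := eventually_atTop.1 (hu 0)
    obtain ⟨m, hm1, -, hm3⟩ := hn₀ (max n₀ N) (le_max_left _ _)
    exact ⟨m, hm3, lt_of_le_of_lt (le_max_right _ _) hm1⟩
  refine ⟨hinf, ?_, ?_⟩
  · have h2 : Tendsto (fun j : ℕ => ENNReal.ofReal ((1 - 1 / ((j : ℝ) + 2)) / ((1 - α) + d / GG))) atTop
        (𝓝 (ENNReal.ofReal (1 / ((1 - α) + d / GG)))) := by
      apply ENNReal.tendsto_ofReal
      have h3 : Tendsto (fun j : ℕ => (1 - 1 / ((j : ℝ) + 2)) / ((1 - α) + d / GG)) atTop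
          (𝓝 ((1 - 0) / ((1 - α) + d / GG))) := by
        apply Tendsto.div_const
        apply Tendsto.const_sub
        have := (tendsto_one_div_add_atTop_nhds_zero_nat (𝕜 := ℝ)).comp (tendsto_add_atTop_nat 1)
        refine this.congr (fun j => ?_)
        simp only [Function.comp]
        push_cast
        ring
      rw [sub_zero] at h3
      exact h3
    refine le_of_tendsto' h2 (fun j => ?_)
    apply LL_ge' _ hinf _ _ (hl j)
    apply div_nonneg _ hB.le
    have hj : (0 : ℝ) < (j : ℝ) + 2 := by positivity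
    rw [sub_nonneg, div_le_one hj]
    have : (0 : ℝ) ≤ j := Nat.cast_nonneg j
    linarith
  · have h2 : Tendsto (fun j : ℕ => ENNReal.ofReal ((1 + 1 / ((j : ℝ) + 1)) / (1 - α))) atTop
        (𝓝 (ENNReal.ofReal (1 / (1 - α)))) := by
      apply ENNReal.tendsto_ofReal
      have h3 : Tendsto (fun j : ℕ => (1 + 1 / ((j : ℝ) + 1)) / (1 - α)) atTop
          (𝓝 ((1 + 0) / (1 - α))) := by
        apply Tendsto.div_const
        apply Tendsto.const_add
        exact tendsto_one_div_add_atTop_nhds_zero_nat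
      rw [add_zero] at h3
      exact h3
    exact ge_of_tendsto' h2 (fun j => LL_le _ hinf _ (hu j))

theorem mix_gt (α : ℝ) (h0 : 0 < α) (h1 : α ≤ 1 / 5) :
    1 < 1 / ((1 - α) + -Real.log (1 - α) / GG) := by
  have hG := GG_pos
  have h2 := beats α h0 h1
  have h4 : 0 < -Real.log (1 - α) := by
    have := Real.log_neg (show 0 < 1 - α by linarith) (by linarith)
    linarith
  rw [div_lt_div_iff₀ h0 h4, one_mul] at h2
  have h5 : -Real.log (1 - α) / GG < α := by
    rw [div_lt_iff₀ hG]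
    linarith
  rw [lt_one_div (by norm_num) (by
    have : 0 < -Real.log (1 - α) / GG := div_pos h4 hG
    linarith), one_div_one]
  linarith

end Pool.Agent.U839.Thin
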